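import Mathlib

/-!
Finite abelian groups: how many tuples of generators satisfy an integer relation.
-/

namespace Q299.TD

open Finset

set_option linter.unusedSectionVars false

variable {G : Type*} [AddCommGroup G] [Fintype G] [DecidableEq G] {k : ℕ}

/-- the integer combination of `Z` with coefficients `v` -/
def zdot (Z : Fin k → G) (v : Fin k → ℤ) : G := ∑ i, v i • Z i

lemma zdot_sub (Z : Fin k → G) (v w : Fin k → ℤ) :
    zdot Z (fun i => v i - w i) = zdot Z v - zdot Z w := by
  unfold zdot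
  rw [← Finset.sum_sub_distrib]
  exact Finset.sum_congr rfl fun i _ => sub_smul _ _ _

/-- number of tuples killed by the relation `v` -/
def kc (G : Type*) [AddCommGroup G] [Fintype G] [DecidableEq G] (v : Fin k → ℤ) : ℕ :=
  #{Z : Fin k → G | zdot Z v = 0}

/-- the homomorphism `Z ↦ Z · v` -/
def zhom (G : Type*) [AddCommGroup G] (v : Fin k → ℤ) : (Fin k → G) →+ G where
  toFun Z := ∑ i, v i • Z i
  map_zero' := by simp
  map_add' Z Z' := by
    simp only [Pi.add_apply, smul_add]
    rw [Finset.sum_add_distrib]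

lemma zhom_apply (v : Fin k → ℤ) (Z : Fin k → G) : zhom G v Z = zdot Z v := rfl

lemma card_image_mul (v : Fin k → ℤ) :
    (univ.image (zhom G v)).card * kc G v = Fintype.card G ^ k := by
  have h1 : (univ : Finset (Fin k → G)).card
      = ∑ y ∈ univ.image (zhom G v), #{Z : Fin k → G | zhom G v Z = y} :=
    Finset.card_eq_sum_card_fiberwise (fun Z _ => Finset.mem_coe.mpr (mem_image_of_mem _ (mem_univ Z)))
  have h2 : ∀ y ∈ univ.image (zhom G v), #{Z : Fin k → G | zhom G v Z = y} = kc G v := by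
    intro y hy
    have hy' : y ∈ Set.range (zhom G v) := by
      obtain ⟨Z, _, hZ⟩ := mem_image.mp hy
      exact ⟨Z, hZ⟩
    have h0 : (0 : G) ∈ Set.range (zhom G v) := ⟨0, map_zero _⟩
    have := AddMonoidHom.card_fiber_eq_of_mem_range (zhom G v) hy' h0
    rw [this]
    rfl
  rw [Finset.sum_congr rfl h2, Finset.sum_const, smul_eq_mul] at h1
  rw [← h1, Finset.card_univ, Fintype.card_fun, Fintype.card_fin]

lemma kc_le (v : Fin k → ℤ) : kc G v ≤ Fintype.card G ^ k := by
  unfold kc
  calc _ ≤ (univ : Finset (Fin k → G)).card := card_filter_le _ _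
    _ = _ := by rw [Finset.card_univ, Fintype.card_fun, Fintype.card_fin]

/-- if `S` generates `G` then every element is `g • x` plus one of `g ^ |S|` combinations -/
lemma card_le_image {v : Fin k → ℤ} {g : ℕ} (hg : 0 < g) {a : Fin k → ℤ}
    (ha : ∑ i, a i * v i = g) {S : Finset G} (hS : AddSubgroup.closure (S : Set G) = ⊤) :
    Fintype.card G ≤ g ^ S.card * (univ.image (zhom G v)).card := by
  have hsurj : ∀ x : G, ∃ q ∈ (univ : Finset (S → Fin g)) ×ˢ (univ.image (zhom G v)),
      (∑ s : S, ((q.1 s : ℕ) : ℤ) • (s : G)) + q.2 = x := by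
    intro x
    have hx : x ∈ Submodule.span ℤ (S : Set G) := by
      have h1 : x ∈ AddSubgroup.closure (S : Set G) := by rw [hS]; exact AddSubgroup.mem_top x
      rw [← Submodule.span_int_eq_addSubgroupClosure] at h1
      exact h1
    rw [Submodule.mem_span_finset'] at hx
    obtain ⟨c, hc⟩ := hx
    have hg' : (0 : ℤ) < g := by exact_mod_cast hg
    have hnn : ∀ s : S, 0 ≤ c s % g := fun s => Int.emod_nonneg _ hg'.ne'
    have hlt : ∀ s : S, c s % g < g := fun s => Int.emod_lt_of_pos _ hg'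
    have hlt' : ∀ s : S, (c s % g).toNat < g := fun s => by
      have := hnn s; have := hlt s; omega
    refine ⟨⟨fun s => ⟨(c s % g).toNat, hlt' s⟩, (g : ℤ) • ∑ s : S, (c s / g) • (s : G)⟩, ?_, ?_⟩
    · rw [mem_product]
      refine ⟨mem_univ _, mem_image.mpr ⟨fun i => a i • ∑ s : S, (c s / g) • (s : G),
        mem_univ _, ?_⟩⟩
      change (∑ i, v i • (a i • ∑ s : S, (c s / g) • (s : G))) = (g : ℤ) • ∑ s : S, (c s / g) • (s : G)
      generalize (∑ s : S, (c s / (g : ℤ)) • (s : G)) = y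
      rw [← ha, Finset.sum_smul]
      refine Finset.sum_congr rfl fun i _ => ?_
      rw [smul_smul, mul_comm]
    · change (∑ s : S, (((c s % g).toNat : ℕ) : ℤ) • (s : G))
        + (g : ℤ) • ∑ s : S, (c s / g) • (s : G) = x
      rw [Finset.smul_sum, ← Finset.sum_add_distrib, ← hc]
      refine Finset.sum_congr rfl fun s _ => ?_
      rw [smul_smul, ← add_smul, Int.toNat_of_nonneg (hnn s), Int.emod_add_mul_ediv]
  have h : (univ : Finset G) ⊆ ((univ : Finset (S → Fin g)) ×ˢ (univ.image (zhom G v))).image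
      (fun q => (∑ s : S, ((q.1 s : ℕ) : ℤ) • (s : G)) + q.2) := by
    intro x _
    obtain ⟨q, hq, hqx⟩ := hsurj x
    exact mem_image.mpr ⟨q, hq, hqx⟩
  have h2 := (card_le_card h).trans card_image_le
  rw [card_product, Finset.card_univ, Finset.card_univ, Fintype.card_fun, Fintype.card_fin,
    Fintype.card_coe] at h2
  exact h2

lemma kc_mul_le {v : Fin k → ℤ} {g : ℕ} (hg : 0 < g) {a : Fin k → ℤ}
    (ha : ∑ i, a i * v i = g) {S : Finset G} (hS : AddSubgroup.closure (S : Set G) = ⊤) :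
    Fintype.card G * kc G v ≤ g ^ S.card * Fintype.card G ^ k := by
  have h := card_le_image hg ha hS
  calc _ ≤ (g ^ S.card * (univ.image (zhom G v)).card) * kc G v := Nat.mul_le_mul_right _ h
    _ = g ^ S.card * ((univ.image (zhom G v)).card * kc G v) := by ring
    _ = _ := by rw [card_image_mul]

lemma exists_gcd (v : Fin k → ℤ) :
    ∃ (g : ℕ) (a : Fin k → ℤ), (∀ i, (g : ℤ) ∣ v i) ∧ ∑ i, a i * v i = g := by
  obtain ⟨t, ht⟩ := (IsPrincipalIdealRing.principal (Ideal.span (Set.range v))).principal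
  have h1 : ∀ i, t ∣ v i := by
    intro i
    have : v i ∈ Ideal.span (Set.range v) := Ideal.subset_span ⟨i, rfl⟩
    rw [ht] at this
    exact Ideal.mem_span_singleton.mp this
  have h2 : ((t.natAbs : ℕ) : ℤ) ∈ Ideal.span (Set.range v) := by
    rw [ht]
    exact Ideal.mem_span_singleton.mpr (Int.dvd_natAbs.mpr dvd_rfl)
  obtain ⟨a, ha⟩ := Ideal.mem_span_range_iff_exists_fun.mp h2
  exact ⟨t.natAbs, a, fun i => Int.natAbs_dvd.mpr (h1 i), ha⟩

/-- the main pointwise bound -/
lemma kc_bound {v : Fin k → ℤ} {S : Finset G} (hS : AddSubgroup.closure (S : Set G) = ⊤)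
    {R γ₀ : ℕ} (hv : ∑ i, (v i).natAbs ≤ 2 * R) :
    (Fintype.card G : ℝ) * kc G v ≤ (Fintype.card G : ℝ) ^ k *
      (1 + (∑ γ ∈ Icc 2 γ₀, (γ : ℝ) ^ S.card * (if ∀ i, (γ : ℤ) ∣ v i then 1 else 0))
        + (Fintype.card G : ℝ) * (if #{i | v i ≠ 0} * (γ₀ + 1) ≤ 2 * R then 1 else 0)) := by
  obtain ⟨g, a, hdvd, ha⟩ := exists_gcd v
  have hn : (0 : ℝ) ≤ (Fintype.card G : ℝ) := Nat.cast_nonneg _
  have hs0 : 0 ≤ ∑ γ ∈ Icc 2 γ₀, (γ : ℝ) ^ S.card * (if ∀ i, (γ : ℤ) ∣ v i then 1 else 0) :=
    Finset.sum_nonneg fun γ _ => mul_nonneg (by positivity) (by split_ifs <;> norm_num)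
  have ht0 : 0 ≤ (Fintype.card G : ℝ) * (if #{i | v i ≠ 0} * (γ₀ + 1) ≤ 2 * R then 1 else 0) :=
    mul_nonneg hn (by split_ifs <;> norm_num)
  have hpow : (0 : ℝ) ≤ (Fintype.card G : ℝ) ^ k := by positivity
  by_cases hbig : γ₀ < g ∨ g = 0
  · -- few nonzero coordinates
    have hfew : #{i | v i ≠ 0} * (γ₀ + 1) ≤ 2 * R := by
      refine le_trans ?_ hv
      rcases hbig with hbig | h0
      · calc #{i | v i ≠ 0} * (γ₀ + 1) = ∑ i ∈ univ.filter (fun i => v i ≠ 0), (γ₀ + 1) := by
              rw [Finset.sum_const, smul_eq_mul]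
          _ ≤ ∑ i ∈ univ.filter (fun i => v i ≠ 0), (v i).natAbs := by
              refine Finset.sum_le_sum fun i hi => ?_
              have hne : v i ≠ 0 := (mem_filter.mp hi).2
              have h1 : g ≤ (v i).natAbs := by
                have h2 : g ∣ (v i).natAbs := Int.natCast_dvd.mp (hdvd i)
                exact Nat.le_of_dvd (Int.natAbs_pos.mpr hne) h2
              omega
          _ ≤ _ := Finset.sum_le_sum_of_subset (filter_subset _ _)
      · have : ∀ i, v i = 0 := fun i => by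
          have := hdvd i
          rw [h0] at this
          simpa using this
        simp [this]
    rw [if_pos hfew]
    have h1 : (kc G v : ℝ) ≤ (Fintype.card G : ℝ) ^ k := by exact_mod_cast kc_le v
    calc (Fintype.card G : ℝ) * kc G v ≤ (Fintype.card G : ℝ) * (Fintype.card G : ℝ) ^ k :=
          mul_le_mul_of_nonneg_left h1 hn
      _ = (Fintype.card G : ℝ) ^ k * ((Fintype.card G : ℝ) * 1) := by ring
      _ ≤ _ := by
          refine mul_le_mul_of_nonneg_left ?_ hpow
          linarith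
  · push Not at hbig
    obtain ⟨hle, hg0⟩ := hbig
    have hgpos : 0 < g := Nat.pos_of_ne_zero hg0
    have h1 : (Fintype.card G : ℝ) * kc G v ≤ (g : ℝ) ^ S.card * (Fintype.card G : ℝ) ^ k := by
      exact_mod_cast kc_mul_le hgpos ha hS
    refine h1.trans ?_
    rw [mul_comm]
    refine mul_le_mul_of_nonneg_left ?_ hpow
    rcases Nat.lt_or_ge g 2 with hlt | hge
    · have : g = 1 := by omega
      rw [this]
      simp only [Nat.cast_one, one_pow]
      linarith
    · have h2 : (g : ℝ) ^ S.card * (if ∀ i, (g : ℤ) ∣ v i then 1 else 0)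
          ≤ ∑ γ ∈ Icc 2 γ₀, (γ : ℝ) ^ S.card * (if ∀ i, (γ : ℤ) ∣ v i then 1 else 0) :=
        Finset.single_le_sum (f := fun γ : ℕ => (γ : ℝ) ^ S.card *
            (if ∀ i, (γ : ℤ) ∣ v i then (1 : ℝ) else 0))
          (fun γ _ => mul_nonneg (by positivity) (by split_ifs <;> norm_num))
          (mem_Icc.mpr ⟨hge, hle⟩)
      rw [if_pos hdvd, mul_one] at h2
      linarith

end Q299.TD
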