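import Pool.Agent.Q299.TD.Walk

/-!
Real inequalities for the typical distance.
-/

namespace Q299.TD

open Finset Filter Topology

/-- an explicit upper bound for the factorial -/
lemma fact_le (k : ℕ) (hk : 1 ≤ k) :
    (k.factorial : ℝ) ≤ Real.exp 1 * k * (k / Real.exp 1) ^ k := by
  induction k, hk using Nat.le_induction with
  | base =>
    have := Real.exp_pos 1
    norm_num
  | succ k hk ih =>
    have he := Real.exp_pos 1
    have hk' : (0 : ℝ) < k := by exact_mod_cast hk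
    have hk1 : (0 : ℝ) < (k : ℝ) + 1 := by linarith
    -- e ≤ (1+1/k)^(k+1)
    have h1 : Real.exp 1 ≤ (((k : ℝ) + 1) / k) ^ (k + 1) := by
      have h2 := Real.one_sub_inv_le_log_of_pos (x := ((k : ℝ) + 1) / k) (by positivity)
      have h3 : 1 - (((k : ℝ) + 1) / k)⁻¹ = 1 / (k + 1) := by field_simp; ring
      rw [h3] at h2
      have h4 : (1 : ℝ) ≤ (k + 1 : ℕ) * Real.log (((k : ℝ) + 1) / k) := by
        push_cast
        calc (1 : ℝ) = ((k : ℝ) + 1) * (1 / (k + 1)) := by field_simp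
          _ ≤ _ := mul_le_mul_of_nonneg_left h2 hk1.le
      calc Real.exp 1 ≤ Real.exp ((k + 1 : ℕ) * Real.log (((k : ℝ) + 1) / k)) :=
            Real.exp_le_exp.mpr h4
        _ = _ := by rw [Real.exp_nat_mul, Real.exp_log (by positivity)]
    have h5 : (k : ℝ) * (k / Real.exp 1) ^ k ≤ (((k : ℝ) + 1) / Real.exp 1) ^ (k + 1) := by
      rw [div_pow, div_pow, pow_succ (Real.exp 1), ← mul_div_assoc,
        div_le_div_iff₀ (by positivity) (by positivity)]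
      rw [div_pow, le_div_iff₀ (by positivity)] at h1
      calc (k : ℝ) * k ^ k * (Real.exp 1 ^ k * Real.exp 1)
          = (Real.exp 1 * k ^ (k + 1)) * Real.exp 1 ^ k := by rw [pow_succ]; ring
        _ ≤ ((k : ℝ) + 1) ^ (k + 1) * Real.exp 1 ^ k :=
            mul_le_mul_of_nonneg_right h1 (by positivity)
    rw [Nat.factorial_succ]
    push_cast
    calc ((k : ℝ) + 1) * k.factorial ≤ ((k : ℝ) + 1) * (Real.exp 1 * k * (k / Real.exp 1) ^ k) :=
          mul_le_mul_of_nonneg_left ih hk1.le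
      _ = Real.exp 1 * ((k : ℝ) + 1) * (k * (k / Real.exp 1) ^ k) := by ring
      _ ≤ _ := mul_le_mul_of_nonneg_left h5 (by positivity)

/-- inverse of the number of words -/
lemma inv_wrd_le {S : Finset ℤ} (hS : 1 ≤ S.card) {k R : ℕ} (hk : 1 ≤ k) (hR : k < R) {μ : ℝ}
    (hμ : μ = (R : ℝ) / k) :
    0 < (wrd S k R).card ∧
    ((wrd S k R).card : ℝ)⁻¹ ≤ Real.exp 1 * k * (1 / (Real.exp 1 * S.card * (μ - 1))) ^ k := by
  have he := Real.exp_pos 1
  have hk' : (0 : ℝ) < k := by exact_mod_cast hk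
  have hs' : (0 : ℝ) < S.card := by exact_mod_cast hS
  have hRk : (0 : ℝ) < (R : ℝ) - k := by
    have : (k : ℝ) < R := by exact_mod_cast hR
    linarith
  have hμ1 : 0 < μ - 1 := by
    rw [hμ, sub_pos, lt_div_iff₀ hk']
    linarith
  have h1 : ((S.card : ℝ) ^ k * ((R : ℝ) - k) ^ k) ≤ (k.factorial : ℝ) * (wrd S k R).card := by
    have := card_wrd_ge S k R
    have h2 : ((S.card ^ k * (R - k) ^ k : ℕ) : ℝ) ≤ ((k.factorial * (wrd S k R).card : ℕ) : ℝ) := by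
      exact_mod_cast this
    push_cast [Nat.cast_sub hR.le] at h2
    exact h2
  have hf : (0 : ℝ) < k.factorial := by exact_mod_cast Nat.factorial_pos k
  have hpos : (0 : ℝ) < (wrd S k R).card := by
    by_contra hcon
    push Not at hcon
    have h3 : (k.factorial : ℝ) * (wrd S k R).card ≤ 0 :=
      mul_nonpos_of_nonneg_of_nonpos hf.le hcon
    have h4 : 0 < (S.card : ℝ) ^ k * ((R : ℝ) - k) ^ k := by positivity
    linarith
  refine ⟨by exact_mod_cast hpos, ?_⟩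
  have h5 : ((wrd S k R).card : ℝ)⁻¹ ≤ k.factorial / ((S.card : ℝ) ^ k * ((R : ℝ) - k) ^ k) := by
    rw [inv_le_comm₀ hpos (by positivity), inv_div, div_le_iff₀ hf]
    linarith
  refine h5.trans ?_
  rw [div_le_iff₀ (by positivity)]
  refine (fact_le k hk).trans (le_of_eq ?_)
  have h6 : (R : ℝ) - k = k * (μ - 1) := by rw [hμ]; field_simp
  rw [h6, mul_assoc (Real.exp 1 * (k : ℝ)), ← mul_pow, ← mul_pow]
  congr 2
  field_simp

/-- the key inequality for the residue classes -/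
lemma key_ineq {c : ℝ} (hc : 0 < c) (hc1 : c ≤ 1) : ∀ᶠ μ : ℝ in atTop, ∀ γ : ℕ, 2 ≤ γ →
    (γ : ℝ) ≤ μ ^ (1 + c / 2) →
    (γ : ℝ) ^ (1 - c) * (1 + μ / γ) / (μ - 1) ≤ (2 : ℝ) ^ (-(c / 4)) * (γ : ℝ) ^ (-(c / 8)) := by
  have h2c : (1 : ℝ) < (2 : ℝ) ^ (c / 4) := Real.one_lt_rpow (by norm_num) (by linarith)
  have hA : ∀ᶠ μ : ℝ in atTop, √μ / (√μ - 1) ≤ (2 : ℝ) ^ (c / 4) := by
    have hsq : Tendsto (fun μ : ℝ => √μ) atTop atTop := Real.tendsto_sqrt_atTop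
    filter_upwards [hsq.eventually_ge_atTop (1 + 1 / ((2 : ℝ) ^ (c / 4) - 1))] with μ hμ
    have hd : 0 < (2 : ℝ) ^ (c / 4) - 1 := by linarith
    have h1 : 1 / ((2 : ℝ) ^ (c / 4) - 1) ≤ √μ - 1 := by linarith
    have h1' : 0 < 1 / ((2 : ℝ) ^ (c / 4) - 1) := by positivity
    have h2 : 0 < √μ - 1 := by linarith
    rw [div_le_iff₀ h2]
    rw [div_le_iff₀ hd] at h1
    nlinarith
  have hB : ∀ᶠ μ : ℝ in atTop, 4 * μ ^ (-(3 * c / 8)) ≤ (2 : ℝ) ^ (-(c / 4)) := by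
    have h1 : Tendsto (fun μ : ℝ => 4 * μ ^ (-(3 * c / 8))) atTop (𝓝 (4 * 0)) :=
      (tendsto_rpow_neg_atTop (by linarith)).const_mul 4
    rw [mul_zero] at h1
    exact (h1.eventually (gt_mem_nhds (Real.rpow_pos_of_pos (by norm_num) _))).mono
      fun μ hμ => hμ.le
  filter_upwards [hA, hB, eventually_ge_atTop (4 : ℝ)] with μ hA hB hμ4 γ hγ hγμ
  have hμ0 : 0 < μ := by linarith
  have hγ' : (2 : ℝ) ≤ γ := by exact_mod_cast hγ
  have hγ0 : (0 : ℝ) < γ := by linarith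
  have hμ1 : 0 < μ - 1 := by linarith
  have hsplit : (γ : ℝ) ^ (1 - c) * (1 + μ / γ) = (γ : ℝ) ^ (-c) * (γ + μ) := by
    rw [show (1 - c) = -c + 1 by ring, Real.rpow_add hγ0, Real.rpow_one]
    field_simp
  rw [hsplit, mul_div_assoc]
  rcases le_total ((γ : ℝ) ^ 2) μ with hcase | hcase
  · -- small γ
    have hγs : (γ : ℝ) ≤ √μ := Real.le_sqrt_of_sq_le hcase
    have hs2 : (2 : ℝ) ≤ √μ := le_trans hγ' hγs
    have hss : √μ * √μ = μ := Real.mul_self_sqrt hμ0.le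
    have h1 : (γ + μ) / (μ - 1) ≤ √μ / (√μ - 1) := by
      rw [div_le_div_iff₀ hμ1 (by linarith)]
      have h3 : (γ + μ) * (√μ - 1) ≤ (√μ + μ) * (√μ - 1) :=
        mul_le_mul_of_nonneg_right (by linarith) (by linarith)
      have h4 : (√μ + μ) * (√μ - 1) = √μ * (μ - 1) := by
        linear_combination (1 : ℝ) * hss
      linarith
    have h2 : (γ : ℝ) ^ (-c) = (γ : ℝ) ^ (-(c / 8)) * (γ : ℝ) ^ (-(7 * c / 8)) := by
      rw [← Real.rpow_add hγ0]
      congr 1; ring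
    have h3 : (γ : ℝ) ^ (-(7 * c / 8)) ≤ (2 : ℝ) ^ (-(7 * c / 8)) :=
      Real.rpow_le_rpow_of_nonpos (by norm_num) hγ' (by linarith)
    calc (γ : ℝ) ^ (-c) * ((γ + μ) / (μ - 1))
        ≤ ((γ : ℝ) ^ (-(c / 8)) * (2 : ℝ) ^ (-(7 * c / 8))) * (2 : ℝ) ^ (c / 4) := by
          rw [h2]
          refine mul_le_mul (mul_le_mul_of_nonneg_left h3 (Real.rpow_nonneg hγ0.le _))
            (h1.trans hA) (by positivity) (by positivity)
      _ = (γ : ℝ) ^ (-(c / 8)) * (2 : ℝ) ^ (-(5 * c / 8)) := by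
          rw [mul_assoc, ← Real.rpow_add (by norm_num)]
          congr 2; ring
      _ ≤ (γ : ℝ) ^ (-(c / 8)) * (2 : ℝ) ^ (-(c / 4)) := by
          refine mul_le_mul_of_nonneg_left ?_ (Real.rpow_nonneg hγ0.le _)
          exact Real.rpow_le_rpow_of_exponent_le (by norm_num) (by linarith)
      _ = _ := mul_comm _ _
  · -- large γ
    have hsq : √μ ≤ γ := Real.sqrt_le_iff.mpr ⟨hγ0.le, hcase⟩
    have hsr : √μ = μ ^ (1 / 2 : ℝ) := Real.sqrt_eq_rpow μ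
    have h1 : (γ + μ) / (μ - 1) ≤ 2 * (1 + γ / μ) := by
      rw [div_le_iff₀ hμ1]
      have : 2 * (1 + γ / μ) * (μ - 1) = (γ + μ) * (2 * (μ - 1) / μ) := by field_simp; ring
      rw [this]
      refine le_mul_of_one_le_right (by linarith) ?_
      rw [le_div_iff₀ hμ0]; linarith
    -- bound by 4 μ^(-3c/8) γ^(-c/8)
    have hg8 : 0 < (γ : ℝ) ^ (-(c / 8)) := Real.rpow_pos_of_pos hγ0 _
    have h2 : (γ : ℝ) ^ (-c) ≤ (γ : ℝ) ^ (-(c / 8)) * μ ^ (-(3 * c / 8)) := by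
      have h3 : (γ : ℝ) ^ (-c) = (γ : ℝ) ^ (-(c / 8)) * (γ : ℝ) ^ (-(7 * c / 8)) := by
        rw [← Real.rpow_add hγ0]
        congr 1; ring
      rw [h3]
      refine mul_le_mul_of_nonneg_left ?_ hg8.le
      calc (γ : ℝ) ^ (-(7 * c / 8)) ≤ (μ ^ (1 / 2 : ℝ)) ^ (-(7 * c / 8)) :=
            Real.rpow_le_rpow_of_nonpos (by positivity) (hsr ▸ hsq) (by linarith)
        _ = μ ^ (-(7 * c / 16)) := by
            rw [← Real.rpow_mul hμ0.le]; congr 1; ring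
        _ ≤ μ ^ (-(3 * c / 8)) := Real.rpow_le_rpow_of_exponent_le (by linarith) (by linarith)
    have h4 : (γ : ℝ) ^ (-c) * (γ / μ) ≤ (γ : ℝ) ^ (-(c / 8)) * μ ^ (-(3 * c / 8)) := by
      have h5 : (γ : ℝ) ^ (-c) * (γ / μ)
          = (γ : ℝ) ^ (-(c / 8)) * ((γ : ℝ) ^ (1 - 7 * c / 8) * μ ^ (-1 : ℝ)) := by
        rw [← mul_assoc, ← Real.rpow_add hγ0, Real.rpow_neg_one, ← mul_div_assoc]
        rw [show -(c / 8) + (1 - 7 * c / 8) = -c + 1 by ring, Real.rpow_add hγ0, Real.rpow_one]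
        rfl
      rw [h5]
      refine mul_le_mul_of_nonneg_left ?_ hg8.le
      calc (γ : ℝ) ^ (1 - 7 * c / 8) * μ ^ (-1 : ℝ)
          ≤ (μ ^ (1 + c / 2)) ^ (1 - 7 * c / 8) * μ ^ (-1 : ℝ) := by
            refine mul_le_mul_of_nonneg_right ?_ (by positivity)
            exact Real.rpow_le_rpow hγ0.le hγμ (by linarith)
        _ = μ ^ ((1 + c / 2) * (1 - 7 * c / 8) + -1) := by
            rw [← Real.rpow_mul hμ0.le, ← Real.rpow_add hμ0]
        _ ≤ μ ^ (-(3 * c / 8)) := by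
            refine Real.rpow_le_rpow_of_exponent_le (by linarith) ?_
            nlinarith
    calc (γ : ℝ) ^ (-c) * ((γ + μ) / (μ - 1)) ≤ (γ : ℝ) ^ (-c) * (2 * (1 + γ / μ)) :=
          mul_le_mul_of_nonneg_left h1 (Real.rpow_nonneg hγ0.le _)
      _ = 2 * ((γ : ℝ) ^ (-c) + (γ : ℝ) ^ (-c) * (γ / μ)) := by ring
      _ ≤ 2 * ((γ : ℝ) ^ (-(c / 8)) * μ ^ (-(3 * c / 8))
          + (γ : ℝ) ^ (-(c / 8)) * μ ^ (-(3 * c / 8))) := by linarith
      _ = (4 * μ ^ (-(3 * c / 8))) * (γ : ℝ) ^ (-(c / 8)) := by ring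
      _ ≤ _ := mul_le_mul_of_nonneg_right hB hg8.le

lemma sum_inv_sq_le (N : ℕ) : ∑ γ ∈ Icc 2 N, ((γ : ℝ) ^ 2)⁻¹ ≤ 1 := by
  have h : ∀ N : ℕ, 1 ≤ N → ∑ γ ∈ Icc 2 N, ((γ : ℝ) ^ 2)⁻¹ ≤ 1 - 1 / (N : ℝ) := by
    intro N hN
    induction N, hN using Nat.le_induction with
    | base => simp
    | succ N hN ih =>
      rw [Finset.sum_Icc_succ_top (by omega)]
      have hN' : (0 : ℝ) < N := by exact_mod_cast hN
      push_cast
      have h1 : (((N : ℝ) + 1) ^ 2)⁻¹ ≤ 1 / (N : ℝ) - 1 / ((N : ℝ) + 1) := by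
        have h2 : 1 / (N : ℝ) - 1 / ((N : ℝ) + 1) = (N * ((N : ℝ) + 1))⁻¹ := by field_simp; ring
        rw [h2]
        exact inv_anti₀ (by positivity) (by nlinarith)
      linarith
  rcases Nat.eq_zero_or_pos N with h0 | hpos
  · subst h0; simp
  · have := h N hpos
    have : 0 ≤ 1 / (N : ℝ) := by positivity
    linarith

end Q299.TD
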