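import Mathlib

/-!
Directed and undirected Cayley graphs of a finite abelian group with respect to a tuple of
generators, graph distance, and probabilities over uniform generators and a uniform vertex.
-/

namespace Q299.TD

variable {G : Type*} [AddCommGroup G] {k : ℕ}

/-- The directed Cayley graph `G(z)`: edges `a → a + z i`. -/
def dirAdj (z : Fin k → G) (a b : G) : Prop := ∃ i, b = a + z i

/-- The undirected Cayley graph `G(z)`: generators `± z i`. -/
def undirAdj (z : Fin k → G) (a b : G) : Prop := ∃ i, b = a + z i ∨ b = a - z i

/-- There is a walk with exactly `r` steps from `a` to `b`. -/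
def HasWalk {V : Type*} (adj : V → V → Prop) (r : ℕ) (a b : V) : Prop :=
  ∃ p : ℕ → V, p 0 = a ∧ p r = b ∧ ∀ i < r, adj (p i) (p (i + 1))

/-- Graph distance: the least length of a walk, and `⊤` when there is none. -/
noncomputable def gdist {V : Type*} (adj : V → V → Prop) (a b : V) : ℕ∞ :=
  sInf ((fun r : ℕ => (r : ℕ∞)) '' {r : ℕ | HasWalk adj r a b})

/-- Probability of the event `E` when `Z : Fin k → G` and `u : G` are independent and uniform. -/
noncomputable def prob (G : Type*) (k : ℕ) (E : (Fin k → G) → G → Prop) : ℝ :=
  (Nat.card {p : (Fin k → G) × G // E p.1 p.2} : ℝ) / Nat.card ((Fin k → G) × G)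

end Q299.TD
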