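import Pool.Agent.Q299.TD.Ana

/-!
The two error terms are exponentially small in `k` as soon as `|G|^{1/k}` is large.
-/

namespace Q299.TD

open Finset Filter Topology

set_option linter.unusedSectionVars false

/-- eventually in `μ`: the near words are few -/
lemma near_event {c δ s : ℝ} (hc : 0 < c) (hδ : 0 < δ) (hs : 0 < s) :
    ∀ᶠ μ : ℝ in atTop, 2 * μ ^ (-(c / 2)) * Real.log (s * μ / δ ^ 2) ≤ δ := by
  have h1 : Tendsto (fun μ : ℝ => μ ^ (-(c / 2))) atTop (𝓝 0) :=
    tendsto_rpow_neg_atTop (by linarith)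
  have h2 : Tendsto (fun μ : ℝ => Real.log μ / μ ^ (c / 2)) atTop (𝓝 0) :=
    (isLittleO_log_rpow_atTop (by linarith)).tendsto_div_nhds_zero
  have h3 : Tendsto (fun μ : ℝ => 2 * (Real.log (s / δ ^ 2) * μ ^ (-(c / 2))
      + Real.log μ / μ ^ (c / 2))) atTop (𝓝 (2 * (Real.log (s / δ ^ 2) * 0 + 0))) :=
    ((h1.const_mul _).add h2).const_mul 2
  have h4 : (2 : ℝ) * (Real.log (s / δ ^ 2) * 0 + 0) = 0 := by ring
  rw [h4] at h3
  filter_upwards [h3.eventually (gt_mem_nhds hδ), eventually_gt_atTop (0 : ℝ)] with μ hμ hμ0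
  have h5 : Real.log (s * μ / δ ^ 2) = Real.log (s / δ ^ 2) + Real.log μ := by
    rw [← Real.log_mul (by positivity) (by positivity)]
    congr 1; ring
  have h6 : 2 * μ ^ (-(c / 2)) * Real.log (s * μ / δ ^ 2)
      = 2 * (Real.log (s / δ ^ 2) * μ ^ (-(c / 2)) + Real.log μ / μ ^ (c / 2)) := by
    rw [h5, Real.rpow_neg hμ0.le]
    field_simp
  rw [h6]
  exact hμ.le

/-- the average proportion of elements without short representation -/
theorem missing_small {S : Finset ℤ} (hS : ∀ σ ∈ S, σ = 1 ∨ σ = -1) (hS1 : 1 ≤ S.card)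
    {c ε : ℝ} (hc : 0 < c) (hc1 : c ≤ 1) (hε : 0 < ε) :
    ∃ (X₀ : ℝ) (b : ℕ → ℝ), Tendsto b atTop (𝓝 0) ∧
      ∀ {G : Type*} [AddCommGroup G] [Fintype G] [DecidableEq G] (k : ℕ) (T : Finset G) (X : ℝ),
        AddSubgroup.closure (T : Set G) = ⊤ → 1 ≤ k → 16 ≤ c * k → (T.card : ℝ) ≤ (1 - c) * k →
        X ^ k = Fintype.card G → X₀ ≤ X →
        (∑ Z : Fin k → G, (1 - ((rep S ⌊(1 + ε) * (k * X / (S.card * Real.exp 1))⌋₊ Z).card : ℝ)
          / Fintype.card G)) / (Fintype.card G : ℝ) ^ k ≤ b k := by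
  obtain ⟨s, hs⟩ : ∃ s : ℝ, s = (S.card : ℝ) := ⟨_, rfl⟩
  rw [← hs]
  have hs1 : (1 : ℝ) ≤ s := by rw [hs]; exact_mod_cast hS1
  have hs0 : 0 < s := by linarith
  have he := Real.exp_pos 1
  obtain ⟨δ, hδdef⟩ : ∃ δ : ℝ, δ = Real.log (1 + ε / 4) / 3 := ⟨_, rfl⟩
  have hδ : 0 < δ := by
    rw [hδdef]
    exact div_pos (Real.log_pos (by linarith)) (by norm_num)
  have hδe : Real.exp (3 * δ) = 1 + ε / 4 := by
    rw [hδdef, show 3 * (Real.log (1 + ε / 4) / 3) = Real.log (1 + ε / 4) by ring,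
      Real.exp_log (by linarith)]
  obtain ⟨q, hq⟩ : ∃ q : ℝ, q = (2 : ℝ) ^ (-(c / 4)) := ⟨_, rfl⟩
  have hq0 : 0 < q := hq ▸ Real.rpow_pos_of_pos (by norm_num) _
  have hq1 : q < 1 := hq ▸ Real.rpow_lt_one_of_one_lt_of_neg (by norm_num) (by linarith)
  obtain ⟨ρ, hρ⟩ : ∃ ρ : ℝ, ρ = (1 + ε / 4) / (1 + ε / 2) := ⟨_, rfl⟩
  have hρ0 : 0 < ρ := by rw [hρ]; positivity
  have hρ1 : ρ < 1 := by rw [hρ, div_lt_one (by positivity)]; linarith
  obtain ⟨M, hM⟩ := Filter.eventually_atTop.mp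
    ((key_ineq hc hc1).and ((near_event hc hδ hs0).and ((eventually_ge_atTop (4 : ℝ)).and
      (eventually_ge_atTop (δ ^ 2)))))
  refine ⟨max (s * Real.exp 1 * (max M 4 + 1)) (4 * s * Real.exp 1 / ε),
    fun k => Real.exp 1 * (k * q ^ k) + Real.exp 1 * (k * ρ ^ k), ?_, ?_⟩
  · have h1 := (tendsto_self_mul_const_pow_of_lt_one hq0.le hq1).const_mul (Real.exp 1)
    have h2 := (tendsto_self_mul_const_pow_of_lt_one hρ0.le hρ1).const_mul (Real.exp 1)
    have h3 := h1.add h2
    simpa using h3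
  · intro G _ _ _ k T X hT hk hck hTc hX hX₀
    have hk0 : (0 : ℝ) < k := by exact_mod_cast hk
    have hX1 := le_trans (le_max_left _ _) hX₀
    have hX2 := le_trans (le_max_right _ _) hX₀
    have hXpos : 0 < X := lt_of_lt_of_le (by positivity) hX2
    obtain ⟨D, hD⟩ : ∃ D : ℝ, D = k * X / (s * Real.exp 1) := ⟨_, rfl⟩
    rw [← hD]
    have hDpos : 0 < D := by rw [hD]; positivity
    obtain ⟨R, hR⟩ : ∃ R : ℕ, R = ⌊(1 + ε) * D⌋₊ := ⟨_, rfl⟩
    rw [← hR]
    have hR1 : (1 + ε) * D < R + 1 := by rw [hR]; exact Nat.lt_floor_add_one _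
    obtain ⟨μ, hμdef⟩ : ∃ μ : ℝ, μ = (R : ℝ) / k := ⟨_, rfl⟩
    have hRμ : (R : ℝ) = k * μ := by rw [hμdef]; field_simp
    have hk1 : (1 : ℝ) ≤ k := by exact_mod_cast hk
    have hμX : (1 + ε) * X ≤ s * Real.exp 1 * (μ + 1) := by
      have h1 : (1 + ε) * D ≤ k * (μ + 1) := by rw [mul_add, ← hRμ]; linarith
      have h2 : (1 + ε) * D = k * ((1 + ε) * X / (s * Real.exp 1)) := by rw [hD]; ring
      rw [h2] at h1
      have h3 := le_of_mul_le_mul_left h1 hk0
      rw [div_le_iff₀ (by positivity)] at h3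
      linarith
    have hμM : max M 4 ≤ μ := by
      have h1 : s * Real.exp 1 * (max M 4 + 1) ≤ s * Real.exp 1 * (μ + 1) := by
        refine hX1.trans (le_trans ?_ hμX)
        nlinarith
      have := le_of_mul_le_mul_left h1 (by positivity)
      linarith
    obtain ⟨hkey, hnear, hμ4, hμδ⟩ := hM μ (le_trans (le_max_left _ _) hμM)
    have hμ0 : 0 < μ := by linarith
    have hμ1 : 0 < μ - 1 := by linarith
    have hkR : k < R := by
      have : (k : ℝ) < R := by rw [hRμ]; nlinarith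
      exact_mod_cast this
    have hR0 : (0 : ℝ) < R := by rw [hRμ]; positivity
    have hC4 : (1 + ε / 2) * X ≤ Real.exp 1 * s * (μ - 1) := by
      have h1 : 4 * s * Real.exp 1 ≤ ε * X := by rw [div_le_iff₀ hε] at hX2; linarith
      nlinarith
    obtain ⟨hWpos, hWinv⟩ := inv_wrd_le (S := S) hS1 hk hkR hμdef
    have hWpos' : (0 : ℝ) < (wrd S k R).card := by exact_mod_cast hWpos
    rw [← hs] at hWinv
    obtain ⟨γ₀, hγ₀⟩ : ∃ γ₀ : ℕ, γ₀ = ⌊μ ^ (1 + c / 2)⌋₊ := ⟨_, rfl⟩
    have hpowpos : 0 < μ ^ (1 + c / 2) := Real.rpow_pos_of_pos hμ0 _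
    obtain ⟨lam, hlam⟩ : ∃ lam : ℝ, lam = δ ^ 2 / (s * μ) := ⟨_, rfl⟩
    have hlam0 : 0 < lam := by rw [hlam]; positivity
    have hlam1 : lam ≤ 1 := by
      rw [hlam, div_le_one (by positivity)]
      exact hμδ.trans (le_mul_of_one_le_left hμ0.le hs1)
    have hmain := missing_le (G := G) (k := k) hS (R := R) (γ₀ := γ₀) hT hWpos
      (θ := 1 / μ) (η := δ / μ) (lam := lam) (by positivity) (by positivity) hlam0 hlam1
    rw [← hs] at hmain
    have hn : (0 : ℝ) < (Fintype.card G : ℝ) ^ k := by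
      rw [← hX]; positivity
    rw [div_le_iff₀ hn, mul_comm]
    refine hmain.trans ?_
    refine mul_le_mul_of_nonneg_left ?_ hn.le
    rw [add_div]
    refine add_le_add ?_ ?_
    · -- residue classes
      rw [Finset.sum_div]
      have hterm : ∀ γ ∈ Icc 2 γ₀, (γ : ℝ) ^ T.card *
          (Real.exp (1 / μ * R) * (s * (1 + 1 / (1 / μ * γ))) ^ k) / (wrd S k R).card
          ≤ Real.exp 1 * k * q ^ k * ((γ : ℝ) ^ 2)⁻¹ := by
        intro γ hγ
        obtain ⟨h2, hγγ⟩ := mem_Icc.mp hγ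
        have hγ2 : (2 : ℝ) ≤ γ := by exact_mod_cast h2
        have hγ0 : (0 : ℝ) < γ := by linarith
        have hγμ : (γ : ℝ) ≤ μ ^ (1 + c / 2) :=
          le_trans (by rw [hγ₀] at hγγ; exact_mod_cast hγγ) (Nat.floor_le hpowpos.le)
        have hk' := hkey γ h2 hγμ
        rw [← hq] at hk'
        have e1 : Real.exp (1 / μ * R) = Real.exp 1 ^ k := by
          rw [← Real.exp_nat_mul, hRμ]
          congr 1
          field_simp
        have e2 : (γ : ℝ) ^ T.card ≤ ((γ : ℝ) ^ (1 - c)) ^ k := by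
          rw [← Real.rpow_natCast, ← Real.rpow_natCast, ← Real.rpow_mul hγ0.le]
          exact Real.rpow_le_rpow_of_exponent_le (by linarith) hTc
        have e3 : 1 + 1 / (1 / μ * (γ : ℝ)) = 1 + μ / γ := by field_simp
        have hbase : (0 : ℝ) ≤ (γ : ℝ) ^ (1 - c) * (1 + μ / γ) / (μ - 1) := by positivity
        calc (γ : ℝ) ^ T.card *
          (Real.exp (1 / μ * R) * (s * (1 + 1 / (1 / μ * γ))) ^ k) / (wrd S k R).card
            ≤ ((γ : ℝ) ^ (1 - c)) ^ k * (Real.exp 1 ^ k * (s * (1 + μ / γ)) ^ k)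
              * (Real.exp 1 * k * (1 / (Real.exp 1 * s * (μ - 1))) ^ k) := by
              rw [e1, e3, div_eq_mul_inv]
              refine mul_le_mul ?_ hWinv (inv_nonneg.mpr hWpos'.le) (by positivity)
              exact mul_le_mul_of_nonneg_right e2 (by positivity)
          _ = Real.exp 1 * k * ((γ : ℝ) ^ (1 - c) * (1 + μ / γ) / (μ - 1)) ^ k := by
              have : (γ : ℝ) ^ (1 - c) * (1 + μ / γ) / (μ - 1)
                  = (γ : ℝ) ^ (1 - c) * (Real.exp 1 * (s * (1 + μ / γ)))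
                    * (1 / (Real.exp 1 * s * (μ - 1))) := by
                field_simp
              rw [this]
              simp only [mul_pow]
              ring
          _ ≤ Real.exp 1 * k * (q * (γ : ℝ) ^ (-(c / 8))) ^ k := by
              refine mul_le_mul_of_nonneg_left ?_ (by positivity)
              exact pow_le_pow_left₀ hbase hk' k
          _ = Real.exp 1 * k * q ^ k * ((γ : ℝ) ^ (-(c / 8))) ^ k := by rw [mul_pow]; ring
          _ ≤ _ := by
              refine mul_le_mul_of_nonneg_left ?_ (by positivity)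
              rw [← Real.rpow_natCast, ← Real.rpow_mul hγ0.le, ← Real.rpow_natCast,
                ← Real.rpow_neg hγ0.le]
              refine Real.rpow_le_rpow_of_exponent_le (by linarith) ?_
              push_cast
              linarith
      calc _ ≤ ∑ γ ∈ Icc 2 γ₀, Real.exp 1 * k * q ^ k * ((γ : ℝ) ^ 2)⁻¹ := Finset.sum_le_sum hterm
        _ = Real.exp 1 * k * q ^ k * ∑ γ ∈ Icc 2 γ₀, ((γ : ℝ) ^ 2)⁻¹ := by rw [← Finset.mul_sum]
        _ ≤ Real.exp 1 * k * q ^ k * 1 :=
            mul_le_mul_of_nonneg_left (sum_inv_sq_le γ₀) (by positivity)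
        _ = _ := by ring
    · -- near words
      have hj : ((2 * R / (γ₀ + 1) : ℕ) : ℝ) ≤ 2 * k * μ ^ (-(c / 2)) := by
        have h1 : ((2 * R / (γ₀ + 1) : ℕ) : ℝ) ≤ (2 * R : ℕ) / ((γ₀ + 1 : ℕ) : ℝ) := Nat.cast_div_le
        refine h1.trans ?_
        have h2 : μ ^ (1 + c / 2) ≤ ((γ₀ + 1 : ℕ) : ℝ) := by
          push_cast
          rw [hγ₀]
          exact (Nat.lt_floor_add_one _).le
        calc ((2 * R : ℕ) : ℝ) / ((γ₀ + 1 : ℕ) : ℝ) ≤ ((2 * R : ℕ) : ℝ) / μ ^ (1 + c / 2) :=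
              div_le_div_of_nonneg_left (by positivity) hpowpos h2
          _ = _ := by
              push_cast
              rw [hRμ, Real.rpow_add hμ0, Real.rpow_one, Real.rpow_neg hμ0.le]
              field_simp
      have hL : 0 ≤ Real.log (s * μ / δ ^ 2) := by
        refine Real.log_nonneg ?_
        rw [one_le_div (by positivity)]
        exact hμδ.trans (le_mul_of_one_le_left hμ0.le hs1)
      have hlamj : (lam ^ (2 * R / (γ₀ + 1)))⁻¹ ≤ Real.exp δ ^ k := by
        have h1 : (lam ^ (2 * R / (γ₀ + 1)))⁻¹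
            = Real.exp ((2 * R / (γ₀ + 1) : ℕ) * Real.log (s * μ / δ ^ 2)) := by
          rw [Real.exp_nat_mul, Real.exp_log (by positivity), ← inv_pow, hlam, inv_div]
        rw [h1, ← Real.exp_nat_mul]
        refine Real.exp_le_exp.mpr ?_
        calc ((2 * R / (γ₀ + 1) : ℕ) : ℝ) * Real.log (s * μ / δ ^ 2)
            ≤ (2 * k * μ ^ (-(c / 2))) * Real.log (s * μ / δ ^ 2) :=
              mul_le_mul_of_nonneg_right hj hL
          _ = k * (2 * μ ^ (-(c / 2)) * Real.log (s * μ / δ ^ 2)) := by ring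
          _ ≤ k * δ := mul_le_mul_of_nonneg_left hnear hk0.le
      have hexp : Real.exp (δ / μ * R) = Real.exp δ ^ k := by
        rw [← Real.exp_nat_mul, hRμ]
        congr 1
        field_simp
      have h1d : (1 + lam * (s / (δ / μ))) ^ k ≤ Real.exp δ ^ k := by
        have h1 : lam * (s / (δ / μ)) = δ := by
          rw [hlam]
          field_simp
        rw [h1]
        refine pow_le_pow_left₀ (by positivity) ?_ k
        linarith [Real.add_one_le_exp δ]
      have hX' : (Fintype.card G : ℝ) = X ^ k := hX.symm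
      calc (Fintype.card G : ℝ) * ((lam ^ (2 * R / (γ₀ + 1)))⁻¹ * Real.exp (δ / μ * R)
            * (1 + lam * (s / (δ / μ))) ^ k) / (wrd S k R).card
          ≤ X ^ k * (Real.exp δ ^ k * Real.exp δ ^ k * Real.exp δ ^ k)
              * (Real.exp 1 * k * (1 / (Real.exp 1 * s * (μ - 1))) ^ k) := by
            rw [hX', hexp, div_eq_mul_inv]
            refine mul_le_mul ?_ hWinv (inv_nonneg.mpr hWpos'.le) (by positivity)
            refine mul_le_mul_of_nonneg_left ?_ (by positivity)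
            refine mul_le_mul ?_ h1d (by positivity) (by positivity)
            exact mul_le_mul_of_nonneg_right hlamj (by positivity)
        _ = Real.exp 1 * k * (X * Real.exp (3 * δ) / (Real.exp 1 * s * (μ - 1))) ^ k := by
            have h3 : Real.exp (3 * δ) = Real.exp δ * Real.exp δ * Real.exp δ := by
              rw [← Real.exp_add, ← Real.exp_add]
              congr 1; ring
            have : X * Real.exp (3 * δ) / (Real.exp 1 * s * (μ - 1))
                = X * (Real.exp δ * Real.exp δ * Real.exp δ) * (1 / (Real.exp 1 * s * (μ - 1))) := by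
              rw [h3]; ring
            rw [this]
            simp only [mul_pow]
            ring
        _ ≤ Real.exp 1 * k * ρ ^ k := by
            refine mul_le_mul_of_nonneg_left ?_ (by positivity)
            refine pow_le_pow_left₀ (by positivity) ?_ k
            rw [hδe, hρ, div_le_div_iff₀ (by positivity) (by positivity)]
            calc X * (1 + ε / 4) * (1 + ε / 2) = (1 + ε / 4) * ((1 + ε / 2) * X) := by ring
              _ ≤ _ := mul_le_mul_of_nonneg_left hC4 (by positivity)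
        _ = _ := by ring

/-- the small ball is negligible -/
theorem ball_small {ε : ℝ} (hε : 0 < ε) (hε1 : ε < 1) {s : ℝ} (hs : 0 < s) {A : ℕ → Finset ℤ}
    (hA : ∀ (θ : ℝ), 0 < θ → ∀ R, ∑ x ∈ A R, Real.exp (-(θ * (x.natAbs : ℕ))) ≤ 1 + s / θ)
    (k : ℕ) {X n : ℝ} (hX : X ^ k = n) (hX0 : 2 * Real.exp 1 / ε ≤ X) (R' : ℕ)
    (hR' : R' = ⌊(1 - ε) * (k * X / (s * Real.exp 1))⌋₊) :
    (((Fintype.piFinset fun _ : Fin k => A R').filter
        fun w => ∑ i, (w i).natAbs ≤ R').card : ℝ) / n ≤ (1 - ε / 2) ^ k := by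
  have he := Real.exp_pos 1
  have hXpos : 0 < X := lt_of_lt_of_le (by positivity) hX0
  set θ : ℝ := s * Real.exp 1 / ((1 - ε) * X) with hθ
  have h1e : 0 < 1 - ε := by linarith
  have hθ0 : 0 < θ := by rw [hθ]; positivity
  have hb := card_ball_le (k := k) (R := R') (hA θ hθ0 R') hθ0
  have hn : 0 < n := by rw [← hX]; positivity
  rw [div_le_iff₀ hn]
  refine hb.trans ?_
  have h1 : Real.exp (θ * R') ≤ Real.exp 1 ^ k := by
    rw [← Real.exp_nat_mul]
    refine Real.exp_le_exp.mpr ?_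
    have h2 : (R' : ℝ) ≤ (1 - ε) * (k * X / (s * Real.exp 1)) := by
      rw [hR']
      exact Nat.floor_le (by positivity)
    calc θ * R' ≤ θ * ((1 - ε) * (k * X / (s * Real.exp 1))) :=
          mul_le_mul_of_nonneg_left h2 hθ0.le
      _ = k * 1 := by rw [hθ]; field_simp
  have h3 : 1 + s / θ = 1 + (1 - ε) * X / Real.exp 1 := by
    rw [hθ]; field_simp
  rw [h3]
  calc _ ≤ Real.exp 1 ^ k * (1 + (1 - ε) * X / Real.exp 1) ^ k :=
        mul_le_mul_of_nonneg_right h1 (by positivity)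
    _ = (Real.exp 1 + (1 - ε) * X) ^ k := by
        rw [← mul_pow]
        congr 1
        field_simp
    _ ≤ ((1 - ε / 2) * X) ^ k := by
        refine pow_le_pow_left₀ (by positivity) ?_ k
        rw [div_le_iff₀ hε] at hX0
        nlinarith
    _ = _ := by rw [mul_pow, hX]

end Q299.TD
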