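import Mathlib

/-!
Integer points of the simplex and of the cross-polytope, without zero coordinates: a lower bound
for their number, and upper bounds (by exponential weights) for the number of points in a residue
class and for the number of points that differ from a given one in few coordinates.
-/

namespace Q299.TD

open Finset

/-- the alphabet: a sign from `S` and a size between `1` and `R` -/
def alp (S : Finset ℤ) (R : ℕ) : Finset (ℤ × ℕ) := S ×ˢ Icc 1 R

/-- the value of a letter -/
def val (p : ℤ × ℕ) : ℤ := p.1 * p.2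

/-- words of length `k` and total size at most `R` -/
def wrd (S : Finset ℤ) (k R : ℕ) : Finset (Fin k → ℤ × ℕ) :=
  (Fintype.piFinset fun _ : Fin k => alp S R).filter fun w => ∑ i, (w i).2 ≤ R

lemma mem_wrd {S : Finset ℤ} {k R : ℕ} {w : Fin k → ℤ × ℕ} :
    w ∈ wrd S k R ↔ (∀ i, (w i).1 ∈ S ∧ 1 ≤ (w i).2 ∧ (w i).2 ≤ R) ∧ ∑ i, (w i).2 ≤ R := by
  unfold wrd alp
  simp only [mem_filter, Fintype.mem_piFinset, mem_product, mem_Icc]

lemma mem_wrd' {S : Finset ℤ} {k R : ℕ} {w : Fin k → ℤ × ℕ} :
    w ∈ wrd S k R ↔ (∀ i, (w i).1 ∈ S ∧ 1 ≤ (w i).2) ∧ ∑ i, (w i).2 ≤ R := by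
  rw [mem_wrd]
  constructor
  · rintro ⟨h1, h2⟩
    exact ⟨fun i => ⟨(h1 i).1, (h1 i).2.1⟩, h2⟩
  · rintro ⟨h1, h2⟩
    refine ⟨fun i => ⟨(h1 i).1, (h1 i).2, ?_⟩, h2⟩
    exact (Finset.single_le_sum (f := fun i => (w i).2) (fun _ _ => Nat.zero_le _)
      (mem_univ i)).trans h2

/-- adding a letter -/
lemma card_wrd_succ (S : Finset ℤ) (k R : ℕ) :
    S.card * ∑ m ∈ Icc 1 R, (wrd S k (R - m)).card ≤ (wrd S (k + 1) R).card := by
  have h1 : S.card * ∑ m ∈ Icc 1 R, (wrd S k (R - m)).card
      = ((alp S R).sigma fun p => wrd S k (R - p.2)).card := by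
    rw [Finset.card_sigma]
    unfold alp
    rw [Finset.sum_product]
    simp
  rw [h1]
  refine Finset.card_le_card_of_injOn (fun q => Fin.cons q.1 q.2) ?_ ?_
  · intro q hq
    have hq' := Finset.mem_coe.mp hq
    rw [Finset.mem_sigma] at hq'
    obtain ⟨hp, hw⟩ := hq'
    unfold alp at hp
    rw [mem_product, mem_Icc] at hp
    rw [mem_wrd'] at hw
    refine Finset.mem_coe.mpr (mem_wrd'.mpr ⟨?_, ?_⟩)
    · intro i
      refine Fin.cases ?_ ?_ i
      · simp only [Fin.cons_zero]
        exact ⟨hp.1, hp.2.1⟩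
      · intro j
        simp only [Fin.cons_succ]
        exact hw.1 j
    · rw [Fin.sum_univ_succ]
      simp only [Fin.cons_zero, Fin.cons_succ]
      have := hw.2
      have := hp.2.2
      omega
  · rintro ⟨p, w⟩ _ ⟨p', w'⟩ _ h
    have h0 : p = p' := by
      have := congrFun h 0
      simpa using this
    have hs : w = w' := by
      funext j
      have := congrFun h j.succ
      simpa using this
    subst h0
    subst hs
    rfl

lemma sum_pow_ge (k M : ℕ) : M ^ (k + 1) ≤ (k + 1) * ∑ j ∈ range (M + 1), j ^ k := by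
  induction M with
  | zero => simp
  | succ M ih =>
    rw [Finset.sum_range_succ, mul_add]
    have : (M + 1) ^ (k + 1) ≤ M ^ (k + 1) + (k + 1) * (M + 1) ^ k := by
      have h := one_add_mul_le_pow (a := -(1 : ℝ) / (M + 1)) (by
        have : (0 : ℝ) < (M : ℝ) + 1 := by positivity
        rw [le_div_iff₀ this]; nlinarith) (k + 1)
      have hM : (0 : ℝ) < (M : ℝ) + 1 := by positivity
      have h2 : (1 + -(1 : ℝ) / (M + 1)) = M / (M + 1) := by field_simp; ring
      rw [h2, div_pow, le_div_iff₀ (by positivity)] at h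
      have h3 : (((M + 1) ^ (k + 1) : ℕ) : ℝ) ≤ ((M ^ (k + 1) + (k + 1) * (M + 1) ^ k : ℕ) : ℝ) := by
        push_cast
        have h4 : (1 + ((k + 1 : ℕ) : ℝ) * (-1 / ((M : ℝ) + 1))) * ((M : ℝ) + 1) ^ (k + 1)
            = ((M : ℝ) + 1) ^ (k + 1) - (k + 1) * ((M : ℝ) + 1) ^ k := by
          push_cast
          rw [pow_succ]
          field_simp
          ring
        rw [h4] at h
        linarith
      exact_mod_cast h3
    omega

/-- the number of words is at least the volume `|S|^k (R-k)^k / k!` -/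
lemma card_wrd_ge (S : Finset ℤ) (k R : ℕ) :
    S.card ^ k * (R - k) ^ k ≤ k.factorial * (wrd S k R).card := by
  induction k generalizing R with
  | zero =>
    have : (wrd S 0 R).card = 1 := by
      rw [Finset.card_eq_one]
      refine ⟨Fin.elim0, ?_⟩
      ext w
      rw [mem_wrd', mem_singleton]
      constructor
      · intro _
        exact Subsingleton.elim _ _
      · intro _
        exact ⟨fun i => i.elim0, by simp⟩
    simp [this]
  | succ k ih =>
    rcases Nat.lt_or_ge k R with hlt | hge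
    · calc S.card ^ (k + 1) * (R - (k + 1)) ^ (k + 1)
          ≤ S.card ^ (k + 1) * ((k + 1) * ∑ j ∈ range (R - (k + 1) + 1), j ^ k) :=
            Nat.mul_le_mul_left _ (sum_pow_ge _ _)
        _ = (k + 1) * S.card * ∑ j ∈ range (R - k), S.card ^ k * j ^ k := by
            rw [← Finset.mul_sum, show R - (k + 1) + 1 = R - k by omega]
            ring
        _ ≤ (k + 1) * S.card * ∑ m ∈ Icc 1 R, S.card ^ k * (R - m - k) ^ k := by
            refine Nat.mul_le_mul_left _ ?_
            have himg : ∑ j ∈ range (R - k), S.card ^ k * j ^ k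
                = ∑ m ∈ (range (R - k)).image (fun j => R - k - j), S.card ^ k * (R - m - k) ^ k := by
              rw [Finset.sum_image]
              · refine Finset.sum_congr rfl fun j hj => ?_
                have := mem_range.mp hj
                rw [show R - (R - k - j) - k = j by omega]
              · intro a ha b hb hab
                have h1 := mem_range.mp (Finset.mem_coe.mp ha)
                have h2 := mem_range.mp (Finset.mem_coe.mp hb)
                simp only at hab
                omega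
            rw [himg]
            refine Finset.sum_le_sum_of_subset fun m hm => ?_
            obtain ⟨j, hj, hjm⟩ := mem_image.mp hm
            have := mem_range.mp hj
            exact mem_Icc.mpr ⟨by omega, by omega⟩
        _ ≤ (k + 1) * S.card * ∑ m ∈ Icc 1 R, k.factorial * (wrd S k (R - m)).card :=
            Nat.mul_le_mul_left _ (Finset.sum_le_sum fun m _ => ih _)
        _ = (k + 1).factorial * (S.card * ∑ m ∈ Icc 1 R, (wrd S k (R - m)).card) := by
            rw [← Finset.mul_sum, Nat.factorial_succ]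
            ring
        _ ≤ _ := Nat.mul_le_mul_left _ (card_wrd_succ S k R)
    · rw [Nat.sub_eq_zero_of_le (by omega : R ≤ k + 1)]
      simp

/-! ### exponential weights -/

lemma geo_le {x : ℝ} (hx : 0 < x) (n : ℕ) : ∑ j ∈ range n, Real.exp (-x) ^ j ≤ 1 + 1 / x := by
  have h1 : Real.exp (-x) < 1 := Real.exp_lt_one_iff.mpr (by linarith)
  have h0 : 0 < Real.exp (-x) := Real.exp_pos _
  have h2 : ∑ j ∈ range n, Real.exp (-x) ^ j ≤ (1 - Real.exp (-x))⁻¹ := by
    rw [← tsum_geometric_of_lt_one h0.le h1]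
    exact (summable_geometric_of_lt_one h0.le h1).sum_le_tsum _ (fun j _ => pow_nonneg h0.le j)
  refine h2.trans ?_
  have h3 : Real.exp (-x) ≤ 1 / (1 + x) := by
    rw [Real.exp_neg, ← one_div]
    exact one_div_le_one_div_of_le (by linarith) (by linarith [Real.add_one_le_exp x])
  have h4 : (0 : ℝ) < 1 - 1 / (1 + x) := by
    rw [sub_pos, div_lt_one (by linarith)]; linarith
  calc (1 - Real.exp (-x))⁻¹ ≤ (1 - 1 / (1 + x))⁻¹ := inv_anti₀ h4 (by linarith)
    _ = 1 + 1 / x := by
        have h5 : 1 - 1 / (1 + x) = x / (1 + x) := by field_simp; ring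
        rw [h5, inv_div]
        field_simp
        ring

/-- total weight of the sizes in a residue class -/
lemma sum_res_le {θ : ℝ} (hθ : 0 < θ) {γ : ℕ} (hγ : 0 < γ) (R : ℕ) (σ v : ℤ) (hσ : σ = 1 ∨ σ = -1) :
    ∑ m ∈ (Icc 1 R).filter (fun m : ℕ => (γ : ℤ) ∣ σ * m - v), Real.exp (-(θ * m))
      ≤ 1 + 1 / (θ * γ) := by
  have hγ' : (0 : ℝ) < γ := by exact_mod_cast hγ
  have hb : ∀ m : ℕ, Real.exp (-(θ * m)) ≤ Real.exp (-(θ * γ)) ^ (m / γ) := by
    intro m
    rw [← Real.exp_nat_mul]
    refine Real.exp_le_exp.mpr ?_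
    have h1 : ((m / γ : ℕ) : ℝ) * γ ≤ m := by exact_mod_cast Nat.div_mul_le_self m γ
    nlinarith
  have hinj : ∀ a ∈ (Icc 1 R).filter (fun m : ℕ => (γ : ℤ) ∣ σ * m - v),
      ∀ b ∈ (Icc 1 R).filter (fun m : ℕ => (γ : ℤ) ∣ σ * m - v), a / γ = b / γ → a = b := by
    intro a ha b hb hab
    have h1 := (mem_filter.mp ha).2
    have h2 := (mem_filter.mp hb).2
    have h3 : (γ : ℤ) ∣ σ * (a - b) := by
      have := dvd_sub h1 h2
      have h4 : (σ * a - v) - (σ * b - v) = σ * (a - b) := by ring
      rwa [h4] at this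
    have h5 : (γ : ℤ) ∣ (a : ℤ) - b := by
      rcases hσ with rfl | rfl
      · simpa using h3
      · rw [dvd_sub_comm]
        simpa using h3
    have h6 : b ≡ a [MOD γ] := (Nat.modEq_iff_dvd).mpr h5
    have h7 := Nat.div_add_mod a γ
    have h8 := Nat.div_add_mod b γ
    have h9 : b % γ = a % γ := h6
    rw [hab, ← h9] at h7
    omega
  calc _ ≤ ∑ m ∈ (Icc 1 R).filter (fun m : ℕ => (γ : ℤ) ∣ σ * m - v),
        Real.exp (-(θ * γ)) ^ (m / γ) := Finset.sum_le_sum fun m _ => hb m
    _ = ∑ j ∈ ((Icc 1 R).filter (fun m : ℕ => (γ : ℤ) ∣ σ * m - v)).image (fun m => m / γ),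
        Real.exp (-(θ * γ)) ^ j := by
        rw [Finset.sum_image]
        intro a ha b hb hab
        exact hinj a (Finset.mem_coe.mp ha) b (Finset.mem_coe.mp hb) hab
    _ ≤ ∑ j ∈ range (R + 1), Real.exp (-(θ * γ)) ^ j := by
        refine Finset.sum_le_sum_of_subset_of_nonneg ?_ fun j _ _ => by positivity
        intro j hj
        obtain ⟨m, hm, rfl⟩ := mem_image.mp hj
        have := (mem_Icc.mp (mem_filter.mp hm).1).2
        exact mem_range.mpr (lt_of_le_of_lt (Nat.div_le_self m γ) (by omega))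
    _ ≤ _ := by
        refine (geo_le (by positivity) _).trans (le_of_eq ?_)
        rfl

/-- total weight of all positive sizes -/
lemma sum_all_le {θ : ℝ} (hθ : 0 < θ) (R : ℕ) :
    ∑ m ∈ Icc 1 R, Real.exp (-(θ * (m : ℕ))) ≤ 1 / θ := by
  have h1 : ∑ m ∈ Icc 1 R, Real.exp (-(θ * (m : ℕ)))
      = (∑ j ∈ range (R + 1), Real.exp (-θ) ^ j) - 1 := by
    rw [Finset.sum_range_succ' (fun j => Real.exp (-θ) ^ j)]
    simp only [pow_zero, add_sub_cancel_right]
    rw [Finset.range_eq_Ico, Finset.sum_Ico_add' (fun j => Real.exp (-θ) ^ j) 0 R 1]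
    have : Ico (0 + 1) (R + 1) = Icc 1 R := by
      ext x; simp only [mem_Ico, mem_Icc]; omega
    rw [this]
    refine Finset.sum_congr rfl fun m _ => ?_
    rw [← Real.exp_nat_mul]
    congr 1; ring
  rw [h1]
  have := geo_le hθ (R + 1)
  linarith

lemma val_inj {S : Finset ℤ} (hS : ∀ σ ∈ S, σ = 1 ∨ σ = -1) {R : ℕ} {p q : ℤ × ℕ}
    (hp : p ∈ alp S R) (hq : q ∈ alp S R) (h : val p = val q) : p = q := by
  unfold alp at hp hq
  rw [mem_product, mem_Icc] at hp hq
  obtain ⟨σ, m⟩ := p
  obtain ⟨τ, l⟩ := q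
  unfold val at h
  simp only at h hp hq
  have hm : (1 : ℤ) ≤ m := by exact_mod_cast hp.2.1
  have hl : (1 : ℤ) ≤ l := by exact_mod_cast hq.2.1
  rcases hS σ hp.1 with rfl | rfl <;> rcases hS τ hq.1 with rfl | rfl
  · have : (m : ℤ) = l := by linarith
    have : m = l := by exact_mod_cast this
    rw [this]
  · exfalso; linarith
  · exfalso; linarith
  · have : (m : ℤ) = l := by linarith
    have : m = l := by exact_mod_cast this
    rw [this]

/-- number of words in a residue class -/
lemma card_res_le {S : Finset ℤ} (hS : ∀ σ ∈ S, σ = 1 ∨ σ = -1) {k R : ℕ} {θ : ℝ} (hθ : 0 < θ)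
    {γ : ℕ} (hγ : 0 < γ) (v : Fin k → ℤ) :
    (((wrd S k R).filter fun w => ∀ i, (γ : ℤ) ∣ val (w i) - v i).card : ℝ)
      ≤ Real.exp (θ * R) * (S.card * (1 + 1 / (θ * γ))) ^ k := by
  classical
  have h1 : (((wrd S k R).filter fun w => ∀ i, (γ : ℤ) ∣ val (w i) - v i).card : ℝ)
      ≤ ∑ w ∈ Fintype.piFinset (fun i : Fin k =>
          (alp S R).filter (fun p => (γ : ℤ) ∣ val p - v i)),
        Real.exp (θ * R) * ∏ i, Real.exp (-(θ * (w i).2)) := by
    rw [Finset.card_eq_sum_ones, Nat.cast_sum]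
    have hsub : ((wrd S k R).filter fun w => ∀ i, (γ : ℤ) ∣ val (w i) - v i)
        ⊆ Fintype.piFinset (fun i : Fin k => (alp S R).filter (fun p => (γ : ℤ) ∣ val p - v i)) := by
      intro w hw
      obtain ⟨h1, h2⟩ := mem_filter.mp hw
      unfold wrd at h1
      have h3 := (mem_filter.mp h1).1
      rw [Fintype.mem_piFinset] at h3 ⊢
      intro i
      exact mem_filter.mpr ⟨h3 i, h2 i⟩
    refine (Finset.sum_le_sum fun w hw => ?_).trans
      (Finset.sum_le_sum_of_subset_of_nonneg hsub fun w _ _ => by positivity)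
    obtain ⟨h1, h2⟩ := mem_filter.mp hw
    have h3 := (mem_wrd'.mp h1).2
    rw [← Real.exp_sum, ← Real.exp_add, Nat.cast_one]
    refine Real.one_le_exp ?_
    rw [Finset.sum_neg_distrib, ← Finset.mul_sum]
    have h4 : (∑ i, ((w i).2 : ℝ)) ≤ R := by exact_mod_cast h3
    nlinarith
  refine h1.trans ?_
  rw [← Finset.mul_sum, ← Finset.prod_univ_sum
    (fun i : Fin k => (alp S R).filter (fun p => (γ : ℤ) ∣ val p - v i))
    (fun (_ : Fin k) (p : ℤ × ℕ) => Real.exp (-(θ * (p.2 : ℝ))))]
  refine mul_le_mul_of_nonneg_left ?_ (Real.exp_pos _).le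
  calc _ ≤ ∏ _i : Fin k, (S.card * (1 + 1 / (θ * γ))) := by
        refine Finset.prod_le_prod (fun i _ => Finset.sum_nonneg fun p _ => (Real.exp_pos _).le) ?_
        intro i _
        unfold alp
        rw [Finset.sum_filter, Finset.sum_product]
        calc _ ≤ ∑ _σ ∈ S, (1 + 1 / (θ * γ)) := by
              refine Finset.sum_le_sum fun σ hσ => ?_
              rw [← Finset.sum_filter]
              exact sum_res_le hθ hγ R σ (v i) (hS σ hσ)
          _ = _ := by rw [Finset.sum_const, nsmul_eq_mul]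
    _ = _ := by rw [Finset.prod_const, Finset.card_univ, Fintype.card_fin]

/-- number of words that differ from a given word in at most `j` coordinates -/
lemma card_near_le {S : Finset ℤ} (hS : ∀ σ ∈ S, σ = 1 ∨ σ = -1) {k R j : ℕ} {θ lam : ℝ}
    (hθ : 0 < θ) (hl : 0 < lam) (hl1 : lam ≤ 1) (v : Fin k → ℤ) :
    (((wrd S k R).filter fun w => #{i | val (w i) ≠ v i} ≤ j).card : ℝ)
      ≤ (lam ^ j)⁻¹ * Real.exp (θ * R) * (1 + lam * (S.card / θ)) ^ k := by
  classical
  set φ : Fin k → ℤ × ℕ → ℝ := fun i p => if val p = v i then 1 else lam * Real.exp (-(θ * p.2))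
    with hφ
  have hφ0 : ∀ i p, 0 < φ i p := by
    intro i p
    rw [hφ]
    simp only
    split_ifs
    · exact one_pos
    · positivity
  have h1 : (((wrd S k R).filter fun w => #{i | val (w i) ≠ v i} ≤ j).card : ℝ)
      ≤ ∑ w ∈ Fintype.piFinset (fun _ : Fin k => alp S R),
        (lam ^ j)⁻¹ * Real.exp (θ * R) * ∏ i, φ i (w i) := by
    rw [Finset.card_eq_sum_ones, Nat.cast_sum]
    have hsub : ((wrd S k R).filter fun w => #{i | val (w i) ≠ v i} ≤ j)
        ⊆ Fintype.piFinset (fun _ : Fin k => alp S R) := by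
      intro w hw
      obtain ⟨h1, h2⟩ := mem_filter.mp hw
      unfold wrd at h1
      exact (mem_filter.mp h1).1
    refine (Finset.sum_le_sum fun w hw => ?_).trans
      (Finset.sum_le_sum_of_subset_of_nonneg hsub fun w _ _ =>
        mul_nonneg (by positivity) (Finset.prod_nonneg fun i _ => (hφ0 i (w i)).le))
    obtain ⟨h1, h2⟩ := mem_filter.mp hw
    have h3 := (mem_wrd'.mp h1).2
    have hprod : ∏ i, φ i (w i) = ∏ i ∈ univ.filter (fun i => val (w i) ≠ v i),
        (lam * Real.exp (-(θ * (w i).2))) := by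
      rw [Finset.prod_filter]
      refine Finset.prod_congr rfl fun i _ => ?_
      rw [hφ]
      simp only
      by_cases h : val (w i) = v i
      · rw [if_pos h, if_neg (not_not.mpr h)]
      · rw [if_neg h, if_pos h]
    rw [hprod, Finset.prod_mul_distrib, Finset.prod_const, ← Real.exp_sum]
    have h5 : lam ^ j ≤ lam ^ (#{i | val (w i) ≠ v i}) := pow_le_pow_of_le_one hl.le hl1 h2
    have h6 : Real.exp (-(θ * R)) ≤ Real.exp (∑ i ∈ univ.filter (fun i => val (w i) ≠ v i),
        (-(θ * (w i).2))) := by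
      refine Real.exp_le_exp.mpr ?_
      rw [Finset.sum_neg_distrib, ← Finset.mul_sum]
      have h4 : (∑ i ∈ univ.filter (fun i => val (w i) ≠ v i), ((w i).2 : ℝ)) ≤ R := by
        refine le_trans (Finset.sum_le_sum_of_subset_of_nonneg (filter_subset _ _)
          fun i _ _ => Nat.cast_nonneg _) ?_
        exact_mod_cast h3
      nlinarith
    rw [Nat.cast_one]
    calc (1 : ℝ) = (lam ^ j)⁻¹ * Real.exp (θ * R) * (lam ^ j * Real.exp (-(θ * R))) := by
          rw [Real.exp_neg]
          field_simp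
      _ ≤ _ := by
          refine mul_le_mul_of_nonneg_left ?_ (by positivity)
          exact mul_le_mul h5 h6 (Real.exp_pos _).le (by positivity)
  refine h1.trans ?_
  rw [← Finset.mul_sum, ← Finset.prod_univ_sum]
  refine mul_le_mul_of_nonneg_left ?_ (by positivity)
  calc _ ≤ ∏ _i : Fin k, (1 + lam * (S.card / θ)) := by
        refine Finset.prod_le_prod (fun i _ => Finset.sum_nonneg fun p _ => (hφ0 i p).le) ?_
        intro i _
        rw [hφ]
        simp only
        rw [← Finset.sum_filter_add_sum_filter_not (alp S R) (fun p => val p = v i)]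
        refine add_le_add ?_ ?_
        · calc _ = ∑ p ∈ (alp S R).filter (fun p => val p = v i), (1 : ℝ) :=
                Finset.sum_congr rfl fun p hp => if_pos (mem_filter.mp hp).2
            _ = (((alp S R).filter (fun p => val p = v i)).card : ℝ) := by
                rw [Finset.sum_const, nsmul_eq_mul, mul_one]
            _ ≤ 1 := by
                have : ((alp S R).filter (fun p => val p = v i)).card ≤ 1 := by
                  rw [Finset.card_le_one]
                  intro p hp q hq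
                  exact val_inj hS (mem_filter.mp hp).1 (mem_filter.mp hq).1
                    ((mem_filter.mp hp).2.trans (mem_filter.mp hq).2.symm)
                exact_mod_cast this
        · calc _ ≤ ∑ p ∈ (alp S R).filter (fun p => ¬ val p = v i),
                lam * Real.exp (-(θ * p.2)) :=
                le_of_eq (Finset.sum_congr rfl fun p hp => if_neg (mem_filter.mp hp).2)
            _ ≤ ∑ p ∈ alp S R, lam * Real.exp (-(θ * p.2)) :=
                Finset.sum_le_sum_of_subset_of_nonneg (filter_subset _ _)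
                  fun p _ _ => by positivity
            _ = lam * (S.card * ∑ m ∈ Icc 1 R, Real.exp (-(θ * (m : ℕ)))) := by
                rw [← Finset.mul_sum]
                unfold alp
                rw [Finset.sum_product]
                simp only
                rw [Finset.sum_const, nsmul_eq_mul]
            _ ≤ lam * (S.card / θ) := by
                refine mul_le_mul_of_nonneg_left ?_ hl.le
                calc _ ≤ (S.card : ℝ) * (1 / θ) :=
                      mul_le_mul_of_nonneg_left (sum_all_le hθ R) (Nat.cast_nonneg _)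
                  _ = _ := by ring
    _ = _ := by rw [Finset.prod_const, Finset.card_univ, Fintype.card_fin]

/-- number of integer vectors of small norm whose coordinates are allowed -/
lemma card_ball_le {A : Finset ℤ} {k R : ℕ} {θ s : ℝ}
    (hA : ∑ x ∈ A, Real.exp (-(θ * (x.natAbs : ℕ))) ≤ 1 + s / θ) (hθ : 0 < θ) :
    (((Fintype.piFinset fun _ : Fin k => A).filter fun w => ∑ i, (w i).natAbs ≤ R).card : ℝ)
      ≤ Real.exp (θ * R) * (1 + s / θ) ^ k := by
  classical
  have h1 : (((Fintype.piFinset fun _ : Fin k => A).filter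
      fun w => ∑ i, (w i).natAbs ≤ R).card : ℝ)
      ≤ ∑ w ∈ Fintype.piFinset (fun _ : Fin k => A),
        Real.exp (θ * R) * ∏ i, Real.exp (-(θ * ((w i).natAbs : ℕ))) := by
    rw [Finset.card_eq_sum_ones, Nat.cast_sum]
    refine (Finset.sum_le_sum fun w hw => ?_).trans
      (Finset.sum_le_sum_of_subset_of_nonneg (filter_subset _ _) fun w _ _ => by positivity)
    obtain ⟨h1, h2⟩ := mem_filter.mp hw
    rw [← Real.exp_sum, ← Real.exp_add, Nat.cast_one]
    refine Real.one_le_exp ?_
    rw [Finset.sum_neg_distrib, ← Finset.mul_sum]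
    have h4 : (∑ i, (((w i).natAbs : ℕ) : ℝ)) ≤ R := by exact_mod_cast h2
    nlinarith
  refine h1.trans ?_
  rw [← Finset.mul_sum, ← Finset.prod_univ_sum (fun _ : Fin k => A)
    (fun (_ : Fin k) (x : ℤ) => Real.exp (-(θ * ((x.natAbs : ℕ) : ℝ))))]
  refine mul_le_mul_of_nonneg_left ?_ (Real.exp_pos _).le
  calc _ ≤ ∏ _i : Fin k, (1 + s / θ) :=
        Finset.prod_le_prod (fun i _ => Finset.sum_nonneg fun p _ => (Real.exp_pos _).le)
          (fun i _ => hA)
    _ = _ := by rw [Finset.prod_const, Finset.card_univ, Fintype.card_fin]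

/-- alphabets of the balls -/
lemma alpha_dir {θ : ℝ} (hθ : 0 < θ) (R : ℕ) :
    ∑ x ∈ (Icc (0 : ℤ) R), Real.exp (-(θ * (x.natAbs : ℕ))) ≤ 1 + 1 / θ := by
  have h1 : ∑ x ∈ (Icc (0 : ℤ) R), Real.exp (-(θ * (x.natAbs : ℕ)))
      = ∑ j ∈ range (R + 1), Real.exp (-θ) ^ j := by
    have : (Icc (0 : ℤ) R) = (range (R + 1)).image (fun j : ℕ => (j : ℤ)) := by
      ext x
      simp only [mem_Icc, mem_image, mem_range]
      constructor
      · rintro ⟨h1, h2⟩
        exact ⟨x.toNat, by omega, by omega⟩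
      · rintro ⟨j, hj, rfl⟩
        omega
    rw [this, Finset.sum_image (fun a _ b _ h => by exact_mod_cast h)]
    refine Finset.sum_congr rfl fun j _ => ?_
    rw [Int.natAbs_natCast, ← Real.exp_nat_mul]
    congr 1; ring
  rw [h1]
  exact geo_le hθ _

lemma alpha_undir {θ : ℝ} (hθ : 0 < θ) (R : ℕ) :
    ∑ x ∈ (Icc (-(R : ℤ)) R), Real.exp (-(θ * (x.natAbs : ℕ))) ≤ 1 + 2 / θ := by
  have h0 : (Icc (-(R : ℤ)) R) = (Icc (0 : ℤ) R) ∪ (Icc 1 R).image (fun j : ℕ => -(j : ℤ)) := by
    ext x
    simp only [mem_Icc, mem_union, mem_image]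
    constructor
    · rintro ⟨h1, h2⟩
      by_cases h : 0 ≤ x
      · exact Or.inl ⟨h, h2⟩
      · exact Or.inr ⟨x.natAbs, by omega, by omega⟩
    · rintro (⟨h1, h2⟩ | ⟨j, hj, rfl⟩)
      · omega
      · omega
  have hun : ∑ x ∈ (Icc (0 : ℤ) R) ∪ (Icc 1 R).image (fun j : ℕ => -(j : ℤ)),
        Real.exp (-(θ * (x.natAbs : ℕ)))
      ≤ ∑ x ∈ (Icc (0 : ℤ) R), Real.exp (-(θ * (x.natAbs : ℕ)))
        + ∑ x ∈ (Icc 1 R).image (fun j : ℕ => -(j : ℤ)), Real.exp (-(θ * (x.natAbs : ℕ))) := by
    rw [← Finset.sum_union_inter]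
    have : 0 ≤ ∑ x ∈ (Icc (0 : ℤ) R) ∩ (Icc 1 R).image (fun j : ℕ => -(j : ℤ)),
      Real.exp (-(θ * (x.natAbs : ℕ))) := Finset.sum_nonneg fun x _ => (Real.exp_pos _).le
    linarith
  rw [h0]
  refine hun.trans ?_
  have h1 := alpha_dir hθ R
  have h2 : ∑ x ∈ (Icc 1 R).image (fun j : ℕ => -(j : ℤ)), Real.exp (-(θ * (x.natAbs : ℕ)))
      ≤ 1 / θ := by
    rw [Finset.sum_image (fun a _ b _ h => by
      have : (a : ℤ) = b := by simpa using h
      exact_mod_cast this)]
    refine le_trans (le_of_eq ?_) (sum_all_le hθ R)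
    refine Finset.sum_congr rfl fun j _ => ?_
    rw [Int.natAbs_neg, Int.natAbs_natCast]
  calc _ ≤ (1 + 1 / θ) + 1 / θ := add_le_add h1 h2
    _ = _ := by ring

end Q299.TD
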