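import Pool.Agent.Q299.TD.Alg
import Pool.Agent.Q299.TD.Weights

/-!
The second moment: the proportion of group elements that are not of the form `Z · w` with `w`
a word, averaged over `Z`.
-/

namespace Q299.TD

open Finset

set_option linter.unusedSectionVars false

variable {G : Type*} [AddCommGroup G] [Fintype G] [DecidableEq G] {k : ℕ}

/-- group elements represented by words of size at most `R` -/
def rep (S : Finset ℤ) (R : ℕ) (Z : Fin k → G) : Finset G :=
  (wrd S k R).image fun w => zdot Z (fun i => val (w i))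

lemma rep_second (S : Finset ℤ) (R : ℕ) (Z : Fin k → G) :
    ((wrd S k R).card : ℝ) ^ 2 ≤ (rep S R Z).card *
      ∑ w ∈ wrd S k R, ∑ w' ∈ wrd S k R,
        (if zdot Z (fun i => val (w i) - val (w' i)) = 0 then (1 : ℝ) else 0) := by
  classical
  set f : (Fin k → ℤ × ℕ) → G := fun w => zdot Z (fun i => val (w i)) with hf
  have h1 : ((wrd S k R).card : ℝ) = ∑ g ∈ rep S R Z, ((#{w ∈ wrd S k R | f w = g} : ℕ) : ℝ) := by
    rw [← Nat.cast_sum]
    congr 1
    exact Finset.card_eq_sum_card_fiberwise (fun w hw => Finset.mem_coe.mpr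
      (mem_image_of_mem _ (Finset.mem_coe.mp hw)))
  have h2 : (∑ g ∈ rep S R Z, ((#{w ∈ wrd S k R | f w = g} : ℕ) : ℝ)) ^ 2
      ≤ (rep S R Z).card * ∑ g ∈ rep S R Z, ((#{w ∈ wrd S k R | f w = g} : ℕ) : ℝ) ^ 2 :=
    sq_sum_le_card_mul_sum_sq
  have h3 : ∑ g ∈ rep S R Z, ((#{w ∈ wrd S k R | f w = g} : ℕ) : ℝ) ^ 2
      = ∑ w ∈ wrd S k R, ∑ w' ∈ wrd S k R,
        (if zdot Z (fun i => val (w i) - val (w' i)) = 0 then (1 : ℝ) else 0) := by
    have h4 : ∀ w ∈ wrd S k R, ∑ w' ∈ wrd S k R,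
        (if zdot Z (fun i => val (w i) - val (w' i)) = 0 then (1 : ℝ) else 0)
        = ((#{w' ∈ wrd S k R | f w' = f w} : ℕ) : ℝ) := by
      intro w _
      rw [Finset.sum_boole]
      congr 2
      refine filter_congr fun w' _ => ?_
      rw [zdot_sub, sub_eq_zero]
      exact eq_comm
    rw [Finset.sum_congr rfl h4]
    rw [← Finset.sum_fiberwise_of_maps_to (s := wrd S k R) (t := rep S R Z) (g := f)
      (fun w hw => mem_image_of_mem _ hw)]
    refine Finset.sum_congr rfl fun g _ => ?_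
    have h5 : ∀ w ∈ (wrd S k R).filter (fun w => f w = g),
        ((#{w' ∈ wrd S k R | f w' = f w} : ℕ) : ℝ) = ((#{w' ∈ wrd S k R | f w' = g} : ℕ) : ℝ) := by
      intro w hw
      rw [(mem_filter.mp hw).2]
    rw [Finset.sum_congr rfl h5, Finset.sum_const, nsmul_eq_mul, sq]
  rw [h1]
  refine h2.trans (le_of_eq ?_)
  rw [h3]

/-- averaged bound for the proportion of elements that are not represented -/
lemma missing_le {S : Finset ℤ} (hS : ∀ σ ∈ S, σ = 1 ∨ σ = -1) {R γ₀ : ℕ}
    {T : Finset G} (hT : AddSubgroup.closure (T : Set G) = ⊤)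
    (hW : 0 < (wrd S k R).card) {θ η lam : ℝ} (hθ : 0 < θ) (hη : 0 < η) (hl : 0 < lam)
    (hl1 : lam ≤ 1) :
    (∑ Z : Fin k → G, (1 - ((rep S R Z).card : ℝ) / Fintype.card G))
      ≤ (Fintype.card G : ℝ) ^ k *
        (((∑ γ ∈ Icc 2 γ₀, (γ : ℝ) ^ T.card *
            (Real.exp (θ * R) * (S.card * (1 + 1 / (θ * γ))) ^ k))
          + (Fintype.card G : ℝ) * ((lam ^ (2 * R / (γ₀ + 1)))⁻¹ * Real.exp (η * R)
            * (1 + lam * (S.card / η)) ^ k)) / (wrd S k R).card) := by
  classical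
  set W := wrd S k R with hWdef
  set n : ℝ := (Fintype.card G : ℝ) with hn
  have hGne : Nonempty G := ⟨0⟩
  have hnpos : 0 < n := by
    rw [hn]; exact_mod_cast Fintype.card_pos
  have hWpos : (0 : ℝ) < W.card := by exact_mod_cast hW
  set Q : (Fin k → G) → ℝ := fun Z => ∑ w ∈ W, ∑ w' ∈ W,
    (if zdot Z (fun i => val (w i) - val (w' i)) = 0 then (1 : ℝ) else 0) with hQ
  -- pointwise
  have hpt : ∀ Z : Fin k → G, 1 - ((rep S R Z).card : ℝ) / n ≤ n * Q Z / (W.card : ℝ) ^ 2 - 1 := by
    intro Z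
    have h1 : ((W.card : ℝ)) ^ 2 ≤ (rep S R Z).card * Q Z := rep_second S R Z
    have hrep : 0 < ((rep S R Z).card : ℝ) := by
      by_contra h
      push Not at h
      have hQ0 : 0 ≤ Q Z := Finset.sum_nonneg fun w _ => Finset.sum_nonneg fun w' _ => by
        split_ifs <;> norm_num
      have : ((rep S R Z).card : ℝ) * Q Z ≤ 0 := mul_nonpos_of_nonpos_of_nonneg h hQ0
      have := pow_pos hWpos 2
      linarith
    set x : ℝ := ((rep S R Z).card : ℝ) / n with hx
    have hxpos : 0 < x := div_pos hrep hnpos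
    have h2 : 1 / x ≤ n * Q Z / (W.card : ℝ) ^ 2 := by
      rw [div_le_div_iff₀ hxpos (pow_pos hWpos 2)]
      calc 1 * (W.card : ℝ) ^ 2 ≤ (rep S R Z).card * Q Z := by linarith
        _ = n * Q Z * x := by rw [hx]; field_simp
    have h3 : 2 ≤ x + 1 / x := by
      rw [← sub_nonneg]
      have : x + 1 / x - 2 = (x - 1) ^ 2 / x := by field_simp; ring
      rw [this]; positivity
    linarith
  have hkc : ∀ v : Fin k → ℤ, ∑ Z : Fin k → G, (if zdot Z v = 0 then (1 : ℝ) else 0) = kc G v := by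
    intro v
    rw [Finset.sum_boole]
    rfl
  have hsumQ : ∑ Z : Fin k → G, Q Z
      = ∑ w ∈ W, ∑ w' ∈ W, (kc G (fun i => val (w i) - val (w' i)) : ℝ) := by
    rw [hQ]
    simp only
    rw [Finset.sum_comm]
    refine Finset.sum_congr rfl fun w _ => ?_
    rw [Finset.sum_comm]
    exact Finset.sum_congr rfl fun w' _ => hkc _
  set A : ℝ := ∑ γ ∈ Icc 2 γ₀, (γ : ℝ) ^ T.card *
            (Real.exp (θ * R) * (S.card * (1 + 1 / (θ * γ))) ^ k) with hA
  set B : ℝ := n * ((lam ^ (2 * R / (γ₀ + 1)))⁻¹ * Real.exp (η * R)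
            * (1 + lam * (S.card / η)) ^ k) with hB
  -- inner sums
  have hinner : ∀ w ∈ W, n * ∑ w' ∈ W, (kc G (fun i => val (w i) - val (w' i)) : ℝ)
      ≤ n ^ k * (W.card + (A + B)) := by
    intro w hw
    have hval : ∀ u ∈ W, ∑ i, (val (u i)).natAbs ≤ R := by
      intro u hu
      have h1 := mem_wrd'.mp hu
      refine le_trans (Finset.sum_le_sum fun i _ => ?_) h1.2
      unfold val
      rw [Int.natAbs_mul, Int.natAbs_natCast]
      rcases hS _ (h1.1 i).1 with h | h <;> rw [h] <;> simp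
    have hb : ∀ w' ∈ W, n * (kc G (fun i => val (w i) - val (w' i)) : ℝ)
        ≤ n ^ k * (1 + (∑ γ ∈ Icc 2 γ₀, (γ : ℝ) ^ T.card *
            (if ∀ i, (γ : ℤ) ∣ val (w' i) - val (w i) then 1 else 0))
          + n * (if #{i | val (w' i) ≠ val (w i)} ≤ 2 * R / (γ₀ + 1) then 1 else 0)) := by
      intro w' hw'
      have hv : ∑ i, (val (w i) - val (w' i)).natAbs ≤ 2 * R := by
        calc _ ≤ ∑ i, ((val (w i)).natAbs + (val (w' i)).natAbs) :=
              Finset.sum_le_sum fun i _ => Int.natAbs_sub_le _ _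
          _ = (∑ i, (val (w i)).natAbs) + ∑ i, (val (w' i)).natAbs := Finset.sum_add_distrib
          _ ≤ R + R := add_le_add (hval w hw) (hval w' hw')
          _ = _ := by ring
      have h1 := kc_bound (G := G) hT (γ₀ := γ₀) hv
      refine h1.trans (le_of_eq ?_)
      congr 2
      · congr 1
        refine Finset.sum_congr rfl fun γ _ => ?_
        congr 1
        refine if_congr (forall_congr' fun i => ?_) rfl rfl
        exact dvd_sub_comm
      · congr 1
        refine if_congr ?_ rfl rfl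
        rw [Nat.le_div_iff_mul_le (by omega)]
        have : (univ.filter fun i : Fin k => val (w i) - val (w' i) ≠ 0)
            = univ.filter fun i : Fin k => val (w' i) ≠ val (w i) :=
          filter_congr fun i _ => by
            rw [ne_eq, ne_eq, sub_eq_zero]
            exact not_congr eq_comm
        rw [this]
    rw [Finset.mul_sum]
    refine (Finset.sum_le_sum hb).trans ?_
    rw [← Finset.mul_sum]
    refine mul_le_mul_of_nonneg_left ?_ (by positivity)
    rw [Finset.sum_add_distrib, Finset.sum_add_distrib, Finset.sum_const, nsmul_eq_mul, mul_one,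
      add_assoc]
    refine add_le_add le_rfl (add_le_add ?_ ?_)
    · rw [Finset.sum_comm, hA]
      refine Finset.sum_le_sum fun γ hγ => ?_
      rw [← Finset.mul_sum]
      refine mul_le_mul_of_nonneg_left ?_ (by positivity)
      rw [Finset.sum_boole]
      exact card_res_le hS hθ (by have := (mem_Icc.mp hγ).1; omega) _
    · rw [← Finset.mul_sum, hB]
      refine mul_le_mul_of_nonneg_left ?_ hnpos.le
      rw [Finset.sum_boole]
      exact card_near_le hS hη hl hl1 _
  calc _ ≤ ∑ Z : Fin k → G, (n * Q Z / (W.card : ℝ) ^ 2 - 1) := Finset.sum_le_sum fun Z _ => hpt Z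
    _ = (∑ w ∈ W, n * ∑ w' ∈ W, (kc G (fun i => val (w i) - val (w' i)) : ℝ)) / (W.card : ℝ) ^ 2
        - n ^ k := by
        rw [Finset.sum_sub_distrib, ← Finset.sum_div, ← Finset.mul_sum, hsumQ, Finset.mul_sum,
          Finset.sum_const, nsmul_eq_mul, mul_one, Finset.card_univ, Fintype.card_fun,
          Fintype.card_fin, Nat.cast_pow]
    _ ≤ (∑ _w ∈ W, n ^ k * (W.card + (A + B))) / (W.card : ℝ) ^ 2 - n ^ k := by
        have := Finset.sum_le_sum hinner
        gcongr
    _ = _ := by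
        rw [Finset.sum_const, nsmul_eq_mul]
        field_simp
        ring

end Q299.TD
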