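import Pool.Agent.Q299.TD.Defs
import Pool.Agent.Q299.TD.Moment

/-!
Walks in Cayley graphs and integer combinations; the probability that the distance is atypical.
-/

namespace Q299.TD

open Finset

set_option linter.unusedSectionVars false

variable {G : Type*} [AddCommGroup G] [Fintype G] [DecidableEq G] {k : ℕ}

lemma HasWalk.zero {V : Type*} (adj : V → V → Prop) (a : V) : HasWalk adj 0 a a :=
  ⟨fun _ => a, rfl, rfl, fun i hi => absurd hi (Nat.not_lt_zero i)⟩

lemma HasWalk.snoc {V : Type*} {adj : V → V → Prop} {r : ℕ} {a b c : V} (h : HasWalk adj r a b)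
    (hbc : adj b c) : HasWalk adj (r + 1) a c := by
  obtain ⟨p, h0, hr, hp⟩ := h
  refine ⟨fun i => if i ≤ r then p i else c, ?_, ?_, ?_⟩
  · simp [h0]
  · simp
  · intro i hi
    rcases Nat.lt_or_ge i r with h | h
    · simp only [if_pos h.le, if_pos (show i + 1 ≤ r from h)]
      exact hp i h
    · have : i = r := by omega
      subst this
      simp only [le_refl, if_true, if_neg (show ¬ i + 1 ≤ i by omega)]
      rw [hr]
      exact hbc

lemma hasWalk_succ {V : Type*} {adj : V → V → Prop} {r : ℕ} {a c : V}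
    (h : HasWalk adj (r + 1) a c) : ∃ b, HasWalk adj r a b ∧ adj b c := by
  obtain ⟨p, h0, hr, hp⟩ := h
  refine ⟨p r, ⟨p, h0, rfl, fun i hi => hp i (by omega)⟩, ?_⟩
  have := hp r (by omega)
  rwa [hr] at this

lemma hasWalk_zero {V : Type*} {adj : V → V → Prop} {a c : V}
    (h : HasWalk adj 0 a c) : c = a := by
  obtain ⟨p, h0, hr, _⟩ := h
  rw [← h0, ← hr]

lemma zdot_zero (Z : Fin k → G) : zdot Z (fun _ => 0) = 0 := by
  unfold zdot
  simp

lemma zdot_update (Z : Fin k → G) (v : Fin k → ℤ) (i : Fin k) (x : ℤ) :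
    zdot Z (Function.update v i x) = zdot Z v + (x - v i) • Z i := by
  unfold zdot
  have h : ∀ j, Function.update v i x j • Z j = v j • Z j + (if j = i then (x - v i) • Z i else 0) := by
    intro j
    by_cases hj : j = i
    · subst hj
      rw [Function.update_self, if_pos rfl, ← add_smul]
      congr 1
      ring
    · rw [Function.update_of_ne hj, if_neg hj, add_zero]
  rw [Finset.sum_congr rfl fun j _ => h j, Finset.sum_add_distrib]
  simp

lemma sum_natAbs_update (v : Fin k → ℤ) (i : Fin k) (x : ℤ) :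
    (∑ j, (Function.update v i x j).natAbs) + (v i).natAbs = (∑ j, (v j).natAbs) + x.natAbs := by
  rw [← Finset.add_sum_erase univ _ (mem_univ i), ← Finset.add_sum_erase univ _ (mem_univ i)]
  rw [Function.update_self]
  have : ∑ j ∈ univ.erase i, (Function.update v i x j).natAbs = ∑ j ∈ univ.erase i, (v j).natAbs :=
    Finset.sum_congr rfl fun j hj => by rw [Function.update_of_ne (Finset.ne_of_mem_erase hj)]
  rw [this]
  ring

/-- walks realise nonnegative combinations in the directed graph -/
lemma walk_dir (Z : Fin k → G) : ∀ (r : ℕ) (v : Fin k → ℤ), (∀ i, 0 ≤ v i) →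
    ∑ i, (v i).natAbs = r → HasWalk (dirAdj Z) r 0 (zdot Z v) := by
  intro r
  induction r with
  | zero =>
    intro v _ hr
    have h0 : v = fun _ => 0 := by
      funext i
      have := (Finset.sum_eq_zero_iff.mp hr) i (mem_univ i)
      exact Int.natAbs_eq_zero.mp this
    rw [h0, zdot_zero]
    exact HasWalk.zero _ _
  | succ r ih =>
    intro v hv hr
    obtain ⟨i, _, hi⟩ : ∃ i ∈ (univ : Finset (Fin k)), (v i).natAbs ≠ 0 := by
      by_contra hcon
      push Not at hcon
      rw [Finset.sum_eq_zero hcon] at hr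
      omega
    have hpos : 1 ≤ v i := by
      have := hv i
      omega
    have hsum := sum_natAbs_update v i (v i - 1)
    have h1 := ih (Function.update v i (v i - 1)) (by
      intro j
      by_cases hj : j = i
      · subst hj; rw [Function.update_self]; omega
      · rw [Function.update_of_ne hj]; exact hv j) (by omega)
    have h2 := h1.snoc (c := zdot Z v) ⟨i, by
      rw [zdot_update]
      have : v i - 1 - v i = -1 := by ring
      rw [this, neg_one_smul]
      abel⟩
    exact h2

/-- walks realise all combinations in the undirected graph -/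
lemma walk_undir (Z : Fin k → G) : ∀ (r : ℕ) (v : Fin k → ℤ),
    ∑ i, (v i).natAbs = r → HasWalk (undirAdj Z) r 0 (zdot Z v) := by
  intro r
  induction r with
  | zero =>
    intro v hr
    have h0 : v = fun _ => 0 := by
      funext i
      have := (Finset.sum_eq_zero_iff.mp hr) i (mem_univ i)
      exact Int.natAbs_eq_zero.mp this
    rw [h0, zdot_zero]
    exact HasWalk.zero _ _
  | succ r ih =>
    intro v hr
    obtain ⟨i, _, hi⟩ : ∃ i ∈ (univ : Finset (Fin k)), (v i).natAbs ≠ 0 := by
      by_contra hcon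
      push Not at hcon
      rw [Finset.sum_eq_zero hcon] at hr
      omega
    rcases lt_or_gt_of_ne (show v i ≠ 0 by omega) with hneg | hpos
    · have hsum := sum_natAbs_update v i (v i + 1)
      have h1 := ih (Function.update v i (v i + 1)) (by omega)
      exact h1.snoc (c := zdot Z v) ⟨i, Or.inr (by
        rw [zdot_update]
        have : v i + 1 - v i = 1 := by ring
        rw [this, one_smul]
        abel)⟩
    · have hsum := sum_natAbs_update v i (v i - 1)
      have h1 := ih (Function.update v i (v i - 1)) (by omega)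
      exact h1.snoc (c := zdot Z v) ⟨i, Or.inl (by
        rw [zdot_update]
        have : v i - 1 - v i = -1 := by ring
        rw [this, neg_one_smul]
        abel)⟩

lemma word_dir (Z : Fin k → G) : ∀ (r : ℕ) (u : G), HasWalk (dirAdj Z) r 0 u →
    ∃ v : Fin k → ℤ, (∀ i, 0 ≤ v i) ∧ ∑ i, (v i).natAbs ≤ r ∧ zdot Z v = u := by
  intro r
  induction r with
  | zero =>
    intro u h
    exact ⟨fun _ => 0, fun _ => le_refl _, by simp, by rw [zdot_zero, hasWalk_zero h]⟩
  | succ r ih =>
    intro u h
    obtain ⟨b, hb, i, hi⟩ := hasWalk_succ h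
    obtain ⟨v, hv, hr, hz⟩ := ih b hb
    refine ⟨Function.update v i (v i + 1), ?_, ?_, ?_⟩
    · intro j
      by_cases hj : j = i
      · subst hj; rw [Function.update_self]; have := hv j; omega
      · rw [Function.update_of_ne hj]; exact hv j
    · have := sum_natAbs_update v i (v i + 1)
      have := hv i
      omega
    · rw [zdot_update, hz, hi]
      have : v i + 1 - v i = 1 := by ring
      rw [this, one_smul]

lemma word_undir (Z : Fin k → G) : ∀ (r : ℕ) (u : G), HasWalk (undirAdj Z) r 0 u →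
    ∃ v : Fin k → ℤ, ∑ i, (v i).natAbs ≤ r ∧ zdot Z v = u := by
  intro r
  induction r with
  | zero =>
    intro u h
    exact ⟨fun _ => 0, by simp, by rw [zdot_zero, hasWalk_zero h]⟩
  | succ r ih =>
    intro u h
    obtain ⟨b, hb, i, hi⟩ := hasWalk_succ h
    obtain ⟨v, hr, hz⟩ := ih b hb
    rcases hi with hi | hi
    · refine ⟨Function.update v i (v i + 1), ?_, ?_⟩
      · have := sum_natAbs_update v i (v i + 1)
        omega
      · rw [zdot_update, hz, hi]
        have : v i + 1 - v i = 1 := by ring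
        rw [this, one_smul]
    · refine ⟨Function.update v i (v i - 1), ?_, ?_⟩
      · have := sum_natAbs_update v i (v i - 1)
        omega
      · rw [zdot_update, hz, hi]
        have : v i - 1 - v i = -1 := by ring
        rw [this, neg_one_smul]
        abel

lemma gdist_spec {V : Type*} {adj : V → V → Prop} {r : ℕ} {a b : V} (h : HasWalk adj r a b) :
    ∃ m : ℕ, m ≤ r ∧ gdist adj a b = m ∧ HasWalk adj m a b := by
  have hne : ((fun r : ℕ => (r : ℕ∞)) '' {r : ℕ | HasWalk adj r a b}).Nonempty := ⟨_, r, h, rfl⟩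
  obtain ⟨m, hm, hme⟩ := csInf_mem hne
  refine ⟨m, ?_, hme.symm, hm⟩
  have h1 : gdist adj a b ≤ (r : ℕ∞) := sInf_le ⟨r, h, rfl⟩
  have h2 : ((m : ℕ) : ℕ∞) ≤ r := by
    have : gdist adj a b = (m : ℕ∞) := hme.symm
    rw [this] at h1
    exact h1
  exact_mod_cast h2

/-- The probability of an atypical distance is at most the average proportion of elements without
a short representation plus the proportion of elements in the small ball. -/
lemma prob_bad_le {adj : (Fin k → G) → G → G → Prop} {S A : Finset ℤ} {R R' : ℕ} {D ε : ℝ}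
    (hD : 0 < D) (hR : (R : ℝ) ≤ (1 + ε) * D) (hR' : (1 - ε) * D ≤ R' + 1)
    (h1 : ∀ (Z : Fin k → G) (w : Fin k → ℤ × ℕ), w ∈ wrd S k R →
      ∃ r ≤ R, HasWalk (adj Z) r 0 (zdot Z (fun i => val (w i))))
    (h2 : ∀ (Z : Fin k → G) (r : ℕ) (u : G), r ≤ R' → HasWalk (adj Z) r 0 u →
      ∃ v : Fin k → ℤ, (∀ i, v i ∈ A) ∧ ∑ i, (v i).natAbs ≤ R' ∧ zdot Z v = u) :
    prob G k (fun Z u => ¬ ∃ r : ℕ, gdist (adj Z) 0 u = r ∧ |(r : ℝ) / D - 1| ≤ ε)
      ≤ (∑ Z : Fin k → G, (1 - ((rep S R Z).card : ℝ) / Fintype.card G))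
          / (Fintype.card G : ℝ) ^ k
        + (((Fintype.piFinset fun _ : Fin k => A).filter
            fun w => ∑ i, (w i).natAbs ≤ R').card : ℝ) / Fintype.card G := by
  classical
  have hGne : Nonempty G := ⟨0⟩
  have hnpos : (0 : ℝ) < Fintype.card G := by exact_mod_cast Fintype.card_pos
  set B := (Fintype.piFinset fun _ : Fin k => A).filter fun w => ∑ i, (w i).natAbs ≤ R' with hB
  -- the bad set
  have hbad : ∀ (Z : Fin k → G) (u : G),
      (¬ ∃ r : ℕ, gdist (adj Z) 0 u = r ∧ |(r : ℝ) / D - 1| ≤ ε) →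
      u ∈ (rep S R Z)ᶜ ∪ B.image (fun v => zdot Z v) := by
    intro Z u hu
    by_contra hcon
    rw [mem_union, not_or, mem_compl, not_not] at hcon
    obtain ⟨hrep, hball⟩ := hcon
    apply hu
    obtain ⟨w, hw, hwu⟩ := mem_image.mp hrep
    obtain ⟨r, hr, hwalk⟩ := h1 Z w hw
    have hwu' : zdot Z (fun i => val (w i)) = u := hwu
    rw [hwu'] at hwalk
    obtain ⟨m, hmr, hm, hmw⟩ := gdist_spec hwalk
    refine ⟨m, hm, ?_⟩
    have hmR : (m : ℝ) ≤ (1 + ε) * D := le_trans (by exact_mod_cast hmr.trans hr) hR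
    have hmR' : R' < m := by
      by_contra hle
      push Not at hle
      obtain ⟨v, hvA, hvs, hvz⟩ := h2 Z m u hle hmw
      exact hball (mem_image.mpr ⟨v, mem_filter.mpr ⟨Fintype.mem_piFinset.mpr hvA, hvs⟩, hvz⟩)
    have hmR'' : ((R' : ℝ) + 1) ≤ m := by exact_mod_cast hmR'
    rw [abs_le]
    constructor
    · have : (1 - ε) ≤ m / D := by rw [le_div_iff₀ hD]; linarith
      linarith
    · have : m / D ≤ 1 + ε := by rw [div_le_iff₀ hD]; linarith
      linarith
  unfold prob
  have hcard : (Nat.card ((Fin k → G) × G) : ℝ) = (Fintype.card G : ℝ) ^ k * Fintype.card G := by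
    rw [Nat.card_eq_fintype_card, Fintype.card_prod, Fintype.card_fun, Fintype.card_fin]
    push_cast
    ring
  rw [hcard, div_le_iff₀ (by positivity)]
  have h3 : (Nat.card {p : (Fin k → G) × G //
      ¬ ∃ r : ℕ, gdist (adj p.1) 0 p.2 = r ∧ |(r : ℝ) / D - 1| ≤ ε} : ℝ)
      ≤ ∑ Z : Fin k → G, (((rep S R Z)ᶜ ∪ B.image (fun v => zdot Z v)).card : ℝ) := by
    rw [Nat.card_eq_fintype_card, Fintype.card_subtype]
    have : (univ.filter fun p : (Fin k → G) × G =>
        ¬ ∃ r : ℕ, gdist (adj p.1) 0 p.2 = r ∧ |(r : ℝ) / D - 1| ≤ ε)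
        ⊆ (univ : Finset (Fin k → G)).biUnion
          (fun Z => ((rep S R Z)ᶜ ∪ B.image (fun v => zdot Z v)).image fun u => (Z, u)) := by
      intro p hp
      have := hbad p.1 p.2 (mem_filter.mp hp).2
      exact mem_biUnion.mpr ⟨p.1, mem_univ _, mem_image.mpr ⟨p.2, this, rfl⟩⟩
    refine le_trans (Nat.cast_le.mpr ((card_le_card this).trans card_biUnion_le)) ?_
    rw [Nat.cast_sum]
    refine Finset.sum_le_sum fun Z _ => ?_
    exact_mod_cast card_image_le
  refine h3.trans ?_
  have h4 : ∀ Z : Fin k → G, (((rep S R Z)ᶜ ∪ B.image (fun v => zdot Z v)).card : ℝ)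
      ≤ Fintype.card G * (1 - ((rep S R Z).card : ℝ) / Fintype.card G) + B.card := by
    intro Z
    have h5 : (((rep S R Z)ᶜ ∪ B.image (fun v => zdot Z v)).card : ℝ)
        ≤ ((rep S R Z)ᶜ.card : ℝ) + (B.card : ℝ) := by
      exact_mod_cast (card_union_le _ _).trans (Nat.add_le_add_left card_image_le _)
    have h6 : ((rep S R Z)ᶜ.card : ℝ) = Fintype.card G - (rep S R Z).card := by
      rw [card_compl, Nat.cast_sub (card_le_univ _)]
    rw [h6] at h5
    refine h5.trans (le_of_eq ?_)
    field_simp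
  refine (Finset.sum_le_sum fun Z _ => h4 Z).trans (le_of_eq ?_)
  rw [Finset.sum_add_distrib, ← Finset.mul_sum, Finset.sum_const, nsmul_eq_mul, Finset.card_univ,
    Fintype.card_fun, Fintype.card_fin]
  push_cast
  field_simp

end Q299.TD
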